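import Mathlib
import Pool.Agent.Y728.AK.Final
import Pool.Agent.Y729.FW.Low
import Pool.Agent.Y729.FW.Main1

/-!
# Elliptic curves with full two-torsion of all heights: bad primes, heights and the count of the
Legendre parameters
-/

set_option autoImplicit false

namespace Pool.Agent.Y729.AH

open NumberField IsDedekindDomain Finset
open Pool.Agent.H691R3 (fv fv_na)
open Pool.Agent.TH876.Loc
open Pool.Agent.TH876.FH (faltings IsPeriod FullTwo GoodAt badNorm jInv)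
open Pool.Agent.Y729.FW (legC legC_disc legC_c4 legC_two fv_eq_one_iff fal_one fal_two six_height)

section fin

/-- a set whose finite subsets are bounded -/
theorem fin_of_bound {α : Type*} (S : Set α) (B : ℝ)
    (h : ∀ F : Finset α, (F : Set α) ⊆ S → (F.card : ℝ) ≤ B) : S.Finite ∧ (S.ncard : ℝ) ≤ B := by
  have hf : S.Finite := by
    by_contra hc
    obtain ⟨n, hn⟩ := exists_nat_gt B
    obtain ⟨F, hF, hF2⟩ := (show S.Infinite from hc).exists_subset_card_eq n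
    have := h F hF
    rw [hF2] at this
    linarith
  refine ⟨hf, ?_⟩
  have := h hf.toFinset (by rw [Set.Finite.coe_toFinset])
  rwa [← Set.ncard_eq_toFinset_card S hf] at this

end fin

variable {K : Type} [Field K] [NumberField K]

/-- the primes above two -/
noncomputable def T2 (K : Type) [Field K] [NumberField K] : Finset (Pr K) :=
  (Pool.Agent.H691R3.fv_support_finite (K := K) (two_ne_zero)).toFinset

theorem mem_T2 (v : Pr K) : v ∈ T2 K ↔ fv v (2 : K) ≠ 1 := by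
  unfold T2
  rw [Set.Finite.mem_toFinset]
  rfl

/-- the modular invariant of the Legendre curve with parameter `-z` -/
noncomputable def JJ (z : K) : K := 256 * (z ^ 2 + z + 1) ^ 3 / (z ^ 2 * (1 + z) ^ 2)

theorem pt_neg {l : K} (h0 : l ≠ 0) (h1 : l ≠ 1) : Pt (-l) := by
  refine ⟨neg_ne_zero.2 h0, fun h => h1 ?_⟩
  linear_combination -h

open Classical in
/-- the bad primes contain the primes of the parameter -/
theorem rad_le_bad (E : WeierstrassCurve K) (hE : E.Δ ≠ 0) (h2 : FullTwo E) :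
    ∃ l : K, l ≠ 0 ∧ l ≠ 1 ∧
      E.c₄ ^ 3 / E.Δ * (l ^ 2 * (1 - l) ^ 2) = 256 * (l ^ 2 - l + 1) ^ 3 ∧
      nn (sp (-l) \ T2 K) ≤ badNorm E := by
  obtain ⟨l, h0, h1, hj, hg⟩ := Pool.Agent.Y729.FW.leg K E hE h2
  refine ⟨l, h0, h1, hj, ?_⟩
  have hbad := Pool.Agent.TH876.TT.bad K E hE
  have e1 : badNorm E = nn hbad.toFinset := by
    unfold badNorm nn
    rw [finprod_mem_eq_finite_toFinset_prod _ hbad]
    rfl
  rw [e1]
  refine nn_mono fun v hv => ?_
  rw [Finset.mem_sdiff, mem_sp (pt_neg h0 h1), mem_T2, not_not] at hv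
  rw [Set.Finite.mem_toFinset]
  intro hgood
  apply hv.1
  obtain ⟨k1, k2⟩ := hg v hgood ((fv_eq_one_iff v _).1 hv.2)
  rw [← fv_eq_one_iff] at k1 k2
  refine ⟨by rw [(fv v).map_neg]; exact k1, ?_⟩
  have : -l + 1 = 1 - l := by ring
  rw [this]
  exact k2

open Classical in
/-- the bad primes of the Legendre curve -/
theorem bad_le_rad {l : K} (h0 : l ≠ 0) (h1 : l ≠ 1) :
    badNorm (legC l) ≤ nn (T2 K) * nn (sp (-l)) := by
  have hE : (legC l).Δ ≠ 0 := by
    rw [legC_disc]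
    exact mul_ne_zero (by norm_num) (mul_ne_zero (pow_ne_zero _ h0)
      (pow_ne_zero _ (sub_ne_zero.2 h1.symm)))
  have hbad := Pool.Agent.TH876.TT.bad K (legC l) hE
  have e1 : badNorm (legC l) = nn hbad.toFinset := by
    unfold badNorm nn
    rw [finprod_mem_eq_finite_toFinset_prod _ hbad]
    rfl
  have e2 : nn hbad.toFinset ≤ nn (T2 K ∪ (sp (-l) \ T2 K)) := by
    refine nn_mono fun v hv => ?_
    rw [Finset.union_sdiff_self_eq_union, Finset.mem_union]
    by_contra hc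
    rw [not_or, mem_T2, not_not, mem_sp (pt_neg h0 h1), not_not] at hc
    rw [Set.Finite.mem_toFinset] at hv
    apply hv
    obtain ⟨k1, k2, k3⟩ := hc
    have e4 : -l + 1 = 1 - l := by ring
    rw [(fv v).map_neg] at k2
    rw [e4] at k3
    rw [fv_eq_one_iff] at k1 k2 k3
    refine ⟨1, ?_⟩
    rw [one_smul]
    have k0 : v.valuation K (0 : K) ≤ 1 := by rw [map_zero]; exact zero_le
    refine ⟨k0, ?_, k0, ?_, k0, ?_⟩
    · show v.valuation K (-(1 + l)) ≤ 1
      rw [Valuation.map_neg]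
      refine (Valuation.map_add _ _ _).trans (max_le ?_ k2.le)
      rw [map_one]
    · show v.valuation K l ≤ 1
      exact k2.le
    · rw [legC_disc, map_mul, map_mul, map_pow, map_pow, k2, k3, Pool.Agent.Y729.FW.v_sixteen _ k1]
      simp
  rw [e1]
  refine e2.trans ?_
  rw [nn_union Finset.disjoint_sdiff]
  exact mul_le_mul_of_nonneg_left (nn_mono Finset.sdiff_subset) (nn_pos _).le

theorem lh_neg (l : K) : Height.logHeight₁ (-l) = Height.logHeight₁ l := by
  rw [Pool.Agent.Y729.FW.lh_eq, Pool.Agent.Y729.FW.lh_eq]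
  congr 1
  · refine Finset.sum_congr rfl fun w _ => ?_
    unfold Pool.Agent.Y729.FW.lp
    rw [AbsoluteValue.map_neg]
  · refine finsum_congr fun v => ?_
    unfold Pool.Agent.Y729.FW.lp
    rw [AbsoluteValue.map_neg]

theorem hgt_ge {l : K} (h0 : l ≠ 0) (h1 : l ≠ 1) : Height.logHeight₁ l ≤ hgt (-l) := by
  rw [← lh_neg]
  exact logHeight_le (pt_neg h0 h1)

theorem hgt_le {l : K} (h0 : l ≠ 0) (h1 : l ≠ 1) :
    hgt (-l) ≤ Height.logHeight₁ l + Module.finrank ℚ K * Real.log 2 := by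
  have hs : (![l, -1, 1 - l] : Fin 3 → K) 0 + (![l, -1, 1 - l] : Fin 3 → K) 1 +
      (![l, -1, 1 - l] : Fin 3 → K) 2 = 0 := by
    show l + -1 + (1 - l) = 0
    ring
  have hne : (![l, -1, 1 - l] : Fin 3 → K) 0 * (![l, -1, 1 - l] : Fin 3 → K) 1 *
      (![l, -1, 1 - l] : Fin 3 → K) 2 ≠ 0 := by
    show l * -1 * (1 - l) ≠ 0
    exact mul_ne_zero (mul_ne_zero h0 (neg_ne_zero.2 one_ne_zero)) (sub_ne_zero.2 h1.symm)
  have e1 := Pool.Agent.Y728.AK.height3_eq hs hne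
  have e2 : (![l, -1, 1 - l] : Fin 3 → K) 0 / (![l, -1, 1 - l] : Fin 3 → K) 1 = -l := by
    show l / -1 = -l
    rw [div_neg, div_one]
  rw [e2] at e1
  rw [← e1]
  refine le_trans (le_of_eq ?_) (Pool.Agent.Y729.FW.H3_le l)
  congr 1
  show (∑ w : InfinitePlace K, (w.mult : ℝ) * Real.log (max (w l) (max (w (-1)) (w (1 - l)))) +
    ∑ᶠ v : HeightOneSpectrum (𝓞 K), Real.log
      (max (FinitePlace.mk v l) (max (FinitePlace.mk v (-1)) (FinitePlace.mk v (1 - l))))) /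
    (Module.finrank ℚ K : ℝ) = (∑ w : InfinitePlace K, (w.mult : ℝ) * Real.log (max (w l) (max (w (1 - l)) (w (-1)))) +
    ∑ᶠ v : HeightOneSpectrum (𝓞 K), Real.log
      (max (FinitePlace.mk v l) (max (FinitePlace.mk v (1 - l)) (FinitePlace.mk v (-1))))) /
    (Module.finrank ℚ K : ℝ)
  congr 2
  · refine Finset.sum_congr rfl fun w _ => ?_
    rw [max_comm (w (-1))]
  · refine finsum_congr fun v => ?_
    rw [max_comm (FinitePlace.mk v (-1 : K))]

/-- the parameters with bounded radical outside two -/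
def ZZ (K : Type) [Field K] [NumberField K] (X : ℝ) : Set K :=
  {z | Pt z ∧ ∃ s : Finset (Pr K), (∀ v ∈ sp z, v ∉ T2 K → v ∈ s) ∧ nn s ≤ X}

open Classical in
theorem mem_ZZ {X : ℝ} (z : K) : z ∈ ZZ K X ↔ Pt z ∧ nn (sp z \ T2 K) ≤ X := by
  constructor
  · rintro ⟨h1, s, h2, h3⟩
    refine ⟨h1, (nn_mono fun v hv => ?_).trans h3⟩
    rw [Finset.mem_sdiff] at hv
    exact h2 v hv.1 hv.2
  · rintro ⟨h1, h2⟩
    refine ⟨h1, _, fun v hv hv2 => ?_, h2⟩
    rw [Finset.mem_sdiff]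
    exact ⟨hv, hv2⟩

theorem ZZ_count (K : Type) [Field K] [NumberField K] (ε : ℝ) (hε : 0 < ε) : ∃ C : ℝ, 0 < C ∧
    ∀ X : ℝ, 1 ≤ X → (ZZ K X).Finite ∧ ((ZZ K X).ncard : ℝ) ≤ C * X ^ (2 / 3 + ε) := by
  classical
  obtain ⟨D, hD, h⟩ := Pool.Agent.Y728.mainK K ε hε
  have hT := one_le_nn (T2 K)
  have hTp := nn_pos (T2 K)
  refine ⟨D * nn (T2 K) ^ (2 / 3 + ε), by positivity, fun X hX => ?_⟩
  refine fin_of_bound _ _ fun F hF => ?_
  have h1 := h (nn (T2 K) * X) (by nlinarith) F fun x hx => by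
    have h2 := (mem_ZZ x).1 (hF hx)
    refine ⟨h2.1, (Pool.Agent.Y728.nn_le_mul _ (T2 K)).trans ?_⟩
    exact mul_le_mul_of_nonneg_left h2.2 hTp.le
  refine h1.trans (le_of_eq ?_)
  rw [Real.mul_rpow hTp.le (by linarith)]
  ring

open Classical in
/-- the exceptional parameters -/
theorem exc_set (K : Type) [Field K] [NumberField K] {M : ℝ} (hM : 1 / 3 < M) :
    ∃ ν : ℝ, 0 < ν ∧ ∃ C : ℝ, 0 < C ∧ ∀ X : ℝ, 1 ≤ X →
      ({z : K | Pt z ∧ nn (sp z \ T2 K) ≤ X ∧ M * Real.log (nn (sp z \ T2 K)) ≤ hgt z} : Set K).Finite ∧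
      (({z : K | Pt z ∧ nn (sp z \ T2 K) ≤ X ∧
        M * Real.log (nn (sp z \ T2 K)) ≤ hgt z} : Set K).ncard : ℝ) ≤ C * X ^ (2 / 3 - ν) := by
  obtain ⟨ν, hν, C, hC, h⟩ := Pool.Agent.Y728.AK.exc_aff K (Pool.Agent.Y728.AK.almost_allK K)
    (T2 K) hM
  exact ⟨ν, hν, C, hC, fun X hX => fin_of_bound _ _ fun F hF => h X hX F fun x hx => hF hx⟩

end Pool.Agent.Y729.AH
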