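import Mathlib
import Pool.Agent.TH876.QD.SetC
import Pool.Agent.TH876.NP.Classes
import Pool.Agent.Y729.AH.Leg

/-!
# The count of twists
-/

set_option autoImplicit false

namespace Pool.Agent.Y729.AH

open NumberField IsDedekindDomain Finset
open Pool.Agent.H691R3 (fv fv_na fv_zpow Nv)
open Pool.Agent.TH876.Loc

theorem log_pow_le (k : ℕ) (ε : ℝ) (hε : 0 < ε) : ∃ C : ℝ, 0 < C ∧ ∀ X : ℝ, 1 ≤ X →
    Real.log (3 * X) ^ k ≤ C * X ^ ε := by
  obtain ⟨e, he⟩ : ∃ e : ℝ, e = ε / (k + 1) := ⟨_, rfl⟩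
  have he0 : 0 < e := by rw [he]; positivity
  refine ⟨(3 ^ e / e) ^ k, by positivity, fun X hX => ?_⟩
  have hX0 : 0 < X := by linarith
  have h1 : Real.log (3 * X) ≤ (3 * X) ^ e / e := Real.log_le_rpow_div (by positivity) he0
  have h0 : 0 ≤ Real.log (3 * X) := Real.log_nonneg (by linarith)
  have h2 : Real.log (3 * X) ^ k ≤ ((3 * X) ^ e / e) ^ k := pow_le_pow_left₀ h0 h1 k
  refine h2.trans ?_
  rw [Real.mul_rpow (by norm_num) hX0.le, mul_div_right_comm, mul_pow]
  refine mul_le_mul_of_nonneg_left ?_ (by positivity)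
  rw [← Real.rpow_natCast, ← Real.rpow_mul hX0.le]
  refine Real.rpow_le_rpow_of_exponent_le hX ?_
  rw [he, div_mul_eq_mul_div, div_le_iff₀ (by positivity)]
  nlinarith [(Nat.cast_nonneg k : (0 : ℝ) ≤ k)]

open Classical in
/-- **the count of twists** -/
theorem cnt (K : Type) [Field K] [NumberField K] (c0 : ℕ) (hc0 : 1 ≤ c0) (ε : ℝ) (hε : 0 < ε) :
    ∃ c : ℝ, 0 < c ∧ ∀ X B β : ℝ, 1 ≤ X → 0 ≤ B → 1 / 2 ≤ β → ∀ P : K → Prop,
    (∀ Y, 1 ≤ Y → Y ≤ X → ∀ F : Finset K, (∀ z ∈ F, Pt z ∧ nn (sp z \ T2 K) ≤ Y ∧ P z) →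
      (F.card : ℝ) ≤ B * Y ^ β) →
    ∀ {α : Type} (Q : Finset α) (z : α → K) (A : α → Finset (Pr K)) (code : α → ℕ),
    (∀ q ∈ Q, Pt (z q) ∧ P (z q) ∧ code q < c0 ^ ((sp (z q) ∪ T2 K ∪ A q).card + 1) ∧
      nn (sp (z q) \ T2 K) * nn (A q \ sp (z q)) * nn (A q) ≤ X) →
    Set.InjOn (fun q => (z q, A q, code q)) Q → (Q.card : ℝ) ≤ c * B * X ^ (β + ε) := by
  have hc0r : (1 : ℝ) ≤ c0 := by exact_mod_cast hc0
  obtain ⟨C1, hC1, h1⟩ := Pool.Agent.TH876.QD.SetC_M (Module.finrank ℚ K) (2 * c0) (ε / 2)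
    (by linarith) (by positivity)
  have h1 := h1 K rfl
  obtain ⟨c2, k, hc2, h2⟩ := sum_pow_card (Module.finrank ℚ K) 1 le_rfl
  have h2 := h2 K rfl
  obtain ⟨C3, hC3, h3⟩ := log_pow_le k (ε / 2) (by positivity)
  refine ⟨(2 * c0) ^ ((T2 K).card + 1) * C1 * c2 * C3, by positivity, ?_⟩
  intro X B β hX hB hβ P hP α Q z A code hQ hinj
  have hX0 : 0 < X := by linarith
  obtain ⟨G, hG⟩ : ∃ G : ℝ, G = (2 * c0) ^ ((T2 K).card + 1) * C1 * X ^ (ε / 2) := ⟨_, rfl⟩
  have hG0 : 0 ≤ G := by rw [hG]; positivity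
  -- the fibres
  have hfib : ∀ q0 ∈ Q, (((Q.filter fun q => A q \ sp (z q) = A q0 \ sp (z q0)).filter
      fun q => z q = z q0).card : ℝ) ≤ G := by
    intro q0 hq0
    obtain ⟨p1, p2, p3, p4⟩ := hQ q0 hq0
    obtain ⟨U, hU⟩ : ∃ U, U = (sp (z q0) \ T2 K) ∪ (A q0 \ sp (z q0)) := ⟨_, rfl⟩
    have hUn : nn U ≤ X := by
      rw [hU, nn_union (Finset.disjoint_of_subset_left Finset.sdiff_subset Finset.disjoint_sdiff)]
      have e1 : 1 ≤ nn (A q0) := one_le_nn _
      have e2 : 0 < nn (sp (z q0) \ T2 K) * nn (A q0 \ sp (z q0)) :=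
        mul_pos (nn_pos _) (nn_pos _)
      nlinarith
    have hcard1 : (sp (z q0) ∪ T2 K ∪ (A q0 \ sp (z q0))).card ≤ (T2 K).card + U.card := by
      refine (Finset.card_le_card ?_).trans (Finset.card_union_le _ _)
      intro v hv
      rw [hU]
      simp only [Finset.mem_union, Finset.mem_sdiff] at hv ⊢
      tauto
    have hcard2 : (sp (z q0)).card ≤ (T2 K).card + U.card := by
      refine (Finset.card_le_card ?_).trans (Finset.card_union_le _ _)
      intro v hv
      rw [hU]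
      simp only [Finset.mem_union, Finset.mem_sdiff]
      tauto
    have hle : ((Q.filter fun q => A q \ sp (z q) = A q0 \ sp (z q0)).filter
        fun q => z q = z q0).card ≤
        ((sp (z q0)).powerset ×ˢ Finset.range
          (c0 ^ ((sp (z q0) ∪ T2 K ∪ (A q0 \ sp (z q0))).card + 1))).card := by
      refine Finset.card_le_card_of_injOn (fun q => (A q ∩ sp (z q0), code q)) ?_ ?_
      · intro q hq
        rw [Finset.mem_coe, Finset.mem_filter, Finset.mem_filter] at hq
        obtain ⟨⟨hq, hA⟩, hz⟩ := hq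
        obtain ⟨-, -, r3, -⟩ := hQ q hq
        rw [Finset.mem_coe, Finset.mem_product, Finset.mem_powerset, Finset.mem_range]
        refine ⟨Finset.inter_subset_right, ?_⟩
        have e : sp (z q) ∪ T2 K ∪ A q = sp (z q0) ∪ T2 K ∪ (A q0 \ sp (z q0)) := by
          rw [← hA, hz]
          ext v
          simp only [Finset.mem_union, Finset.mem_sdiff]
          tauto
        rw [← e]
        exact r3
      · intro q hq q' hq' h
        rw [Finset.mem_coe, Finset.mem_filter, Finset.mem_filter] at hq hq'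
        obtain ⟨⟨hq, hA⟩, hz⟩ := hq
        obtain ⟨⟨hq', hA'⟩, hz'⟩ := hq'
        simp only [Prod.mk.injEq] at h
        refine hinj hq hq' ?_
        simp only [Prod.mk.injEq]
        refine ⟨hz.trans hz'.symm, ?_, h.2⟩
        have e : ∀ q1 : α, z q1 = z q0 → A q1 \ sp (z q1) = A q0 \ sp (z q0) →
            A q1 = (A q1 ∩ sp (z q0)) ∪ (A q0 \ sp (z q0)) := by
          intro q1 e1 e2
          rw [← e2, e1]
          ext v
          simp only [Finset.mem_union, Finset.mem_inter, Finset.mem_sdiff]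
          tauto
        rw [e q hz hA, e q' hz' hA', h.1]
    rw [Finset.card_product, Finset.card_powerset, Finset.card_range] at hle
    have hle2 : (((Q.filter fun q => A q \ sp (z q) = A q0 \ sp (z q0)).filter
        fun q => z q = z q0).card : ℝ) ≤ 2 ^ ((T2 K).card + U.card) *
          (c0 : ℝ) ^ ((T2 K).card + U.card + 1) := by
      calc _ ≤ ((2 ^ (sp (z q0)).card *
          c0 ^ ((sp (z q0) ∪ T2 K ∪ (A q0 \ sp (z q0))).card + 1) : ℕ) : ℝ) := by
            exact_mod_cast hle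
        _ = (2 : ℝ) ^ (sp (z q0)).card *
          (c0 : ℝ) ^ ((sp (z q0) ∪ T2 K ∪ (A q0 \ sp (z q0))).card + 1) := by push_cast; ring
        _ ≤ _ := by
            refine mul_le_mul (pow_le_pow_right₀ (by norm_num) hcard2)
              (pow_le_pow_right₀ hc0r (by omega)) (by positivity) (by positivity)
    refine hle2.trans ?_
    have e1 : (2 : ℝ) ^ ((T2 K).card + U.card) * (c0 : ℝ) ^ ((T2 K).card + U.card + 1) ≤
        (2 * c0) ^ ((T2 K).card + 1) * (2 * c0) ^ U.card := by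
      rw [← pow_add]
      have e2 : (T2 K).card + 1 + U.card = (T2 K).card + U.card + 1 := by ring
      rw [e2, mul_pow]
      exact mul_le_mul_of_nonneg_right (pow_le_pow_right₀ (by norm_num) (by omega)) (by positivity)
    refine e1.trans ?_
    rw [hG, mul_assoc ((2 * (c0 : ℝ)) ^ ((T2 K).card + 1))]
    refine mul_le_mul_of_nonneg_left ((h1 U).trans ?_) (by positivity)
    exact mul_le_mul_of_nonneg_left (Real.rpow_le_rpow (nn_pos _).le hUn (by positivity)) hC1.le
  -- the sum over the new additive primes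
  obtain ⟨S, hS⟩ : ∃ S, S = Q.image fun q => A q \ sp (z q) := ⟨_, rfl⟩
  have hpiece : ∀ s ∈ S, ((Q.filter fun q => A q \ sp (z q) = s).card : ℝ) ≤
      G * (B * X ^ β) * ∏ v ∈ s, (1 / Nv v) := by
    intro s hs
    rw [hS, Finset.mem_image] at hs
    obtain ⟨q0, hq0, rfl⟩ := hs
    obtain ⟨s, hs⟩ : ∃ s, s = A q0 \ sp (z q0) := ⟨_, rfl⟩
    have hns : 1 ≤ nn s := one_le_nn s
    have hnsp : 0 < nn s := nn_pos s
    have hY : 1 ≤ X / nn s ^ 2 := by
      rw [le_div_iff₀ (by positivity), one_mul]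
      obtain ⟨-, -, -, p4⟩ := hQ q0 hq0
      rw [← hs] at p4
      have e1 : nn s ≤ nn (A q0) := nn_mono (by rw [hs]; exact Finset.sdiff_subset)
      have e2 : 1 ≤ nn (sp (z q0) \ T2 K) := one_le_nn _
      calc nn s ^ 2 = 1 * nn s * nn s := by ring
        _ ≤ nn (sp (z q0) \ T2 K) * nn s * nn (A q0) := by gcongr
        _ ≤ X := p4
    have hYX : X / nn s ^ 2 ≤ X := by
      rw [div_le_iff₀ (by positivity)]
      have : 1 ≤ nn s ^ 2 := one_le_pow₀ hns
      nlinarith
    have himg : (((Q.filter fun q => A q \ sp (z q) = s).image z).card : ℝ) ≤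
        B * (X / nn s ^ 2) ^ β := by
      refine hP _ hY hYX _ fun y hy => ?_
      rw [Finset.mem_image] at hy
      obtain ⟨q, hq, rfl⟩ := hy
      rw [Finset.mem_filter] at hq
      obtain ⟨p1, p2, p3, p4⟩ := hQ q hq.1
      refine ⟨p1, ?_, p2⟩
      rw [hq.2] at p4
      rw [le_div_iff₀ (by positivity)]
      have e1 : nn s ≤ nn (A q) := nn_mono (by rw [← hq.2]; exact Finset.sdiff_subset)
      have e2 : 0 < nn (sp (z q) \ T2 K) := nn_pos _
      calc nn (sp (z q) \ T2 K) * nn s ^ 2 = nn (sp (z q) \ T2 K) * nn s * nn s := by ring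
        _ ≤ nn (sp (z q) \ T2 K) * nn s * nn (A q) := by gcongr
        _ ≤ X := p4
    have hsum : ((Q.filter fun q => A q \ sp (z q) = s).card : ℝ) ≤
        G * (((Q.filter fun q => A q \ sp (z q) = s).image z).card : ℝ) := by
      rw [Finset.card_eq_sum_card_image z (Q.filter fun q => A q \ sp (z q) = s)]
      push_cast
      calc ∑ b ∈ (Q.filter fun q => A q \ sp (z q) = s).image z,
            (((Q.filter fun q => A q \ sp (z q) = s).filter fun x => z x = b).card : ℝ) ≤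
            ∑ _b ∈ (Q.filter fun q => A q \ sp (z q) = s).image z, G := by
              refine Finset.sum_le_sum fun b hb => ?_
              rw [Finset.mem_image] at hb
              obtain ⟨q1, hq1, rfl⟩ := hb
              rw [Finset.mem_filter] at hq1
              rw [← hq1.2]
              exact hfib q1 hq1.1
        _ = _ := by
              rw [Finset.sum_const, nsmul_eq_mul, mul_comm]
    rw [← hs]
    refine hsum.trans ?_
    rw [mul_assoc]
    refine mul_le_mul_of_nonneg_left (himg.trans ?_) hG0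
    rw [mul_assoc]
    refine mul_le_mul_of_nonneg_left ?_ hB
    rw [Real.div_rpow hX0.le (by positivity), div_eq_mul_inv]
    refine mul_le_mul_of_nonneg_left ?_ (Real.rpow_nonneg hX0.le _)
    have e1 : ∏ v ∈ s, (1 / Nv v) = (nn s)⁻¹ := by
      unfold nn
      rw [← Finset.prod_inv_distrib]
      exact Finset.prod_congr rfl fun v _ => one_div _
    rw [e1]
    refine inv_anti₀ hnsp ?_
    rw [← Real.rpow_natCast, ← Real.rpow_mul hnsp.le]
    calc nn s = nn s ^ (1 : ℝ) := (Real.rpow_one _).symm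
      _ ≤ _ := Real.rpow_le_rpow_of_exponent_le hns (by push_cast; linarith)
  have hlog : ∑ s ∈ S, ∏ v ∈ s, (1 / Nv v) ≤ c2 * Real.log (3 * X) ^ k := by
    refine h2 (3 * X) (by linarith) S fun s hs v hv => ?_
    rw [hS, Finset.mem_image] at hs
    obtain ⟨q, hq, rfl⟩ := hs
    obtain ⟨-, -, -, p4⟩ := hQ q hq
    have e1 : Nv v ≤ nn (A q \ sp (z q)) := Nv_le_nn hv
    have e2 : 1 ≤ nn (A q) := one_le_nn _
    have e3 : 1 ≤ nn (sp (z q) \ T2 K) := one_le_nn _
    have e4 : 0 < nn (A q \ sp (z q)) := nn_pos _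
    have e5 : nn (A q \ sp (z q)) ≤ X := by
      calc nn (A q \ sp (z q)) = 1 * nn (A q \ sp (z q)) * 1 := by ring
        _ ≤ nn (sp (z q) \ T2 K) * nn (A q \ sp (z q)) * nn (A q) := by gcongr
        _ ≤ X := p4
    linarith
  have hprod0 : 0 ≤ G * (B * X ^ β) := by positivity
  calc (Q.card : ℝ) = ∑ s ∈ S, ((Q.filter fun q => A q \ sp (z q) = s).card : ℝ) := by
        rw [hS, Finset.card_eq_sum_card_image (fun q => A q \ sp (z q)) Q]
        push_cast
        rfl
    _ ≤ ∑ s ∈ S, G * (B * X ^ β) * ∏ v ∈ s, (1 / Nv v) := Finset.sum_le_sum hpiece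
    _ = G * (B * X ^ β) * ∑ s ∈ S, ∏ v ∈ s, (1 / Nv v) := by rw [Finset.mul_sum]
    _ ≤ G * (B * X ^ β) * (c2 * (C3 * X ^ (ε / 2))) :=
        mul_le_mul_of_nonneg_left (hlog.trans (mul_le_mul_of_nonneg_left (h3 X hX) hc2.le)) hprod0
    _ = _ := by
        rw [hG]
        have e : X ^ (β + ε) = X ^ β * (X ^ (ε / 2) * X ^ (ε / 2)) := by
          rw [← Real.rpow_add hX0, ← Real.rpow_add hX0]
          congr 1
          ring
        rw [e]
        ring

end Pool.Agent.Y729.AH
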