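import Mathlib
import Pool.Agent.Y729.AH.Leg

/-!
# Elliptic curves with full two-torsion of all heights by their conductor: the main theorems
-/

set_option autoImplicit false

namespace Pool.Agent.Y729.AH

open NumberField IsDedekindDomain Finset Polynomial
open Pool.Agent.H691R3 (fv fv_na)
open Pool.Agent.TH876.Loc
open Pool.Agent.TH876.FH (faltings IsPeriod FullTwo GoodAt badNorm jInv)
open Pool.Agent.Y729.FW (legC legC_disc legC_c4 legC_two fv_eq_one_iff fal_one fal_two six_height)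

variable {K : Type} [Field K] [NumberField K]

/-- the modular invariants by the conductor -/
def Cls (K : Type) [Field K] [NumberField K] (X : ℝ) : Set K :=
  {j | ∃ E : WeierstrassCurve K, E.Δ ≠ 0 ∧ FullTwo E ∧ E.c₄ ^ 3 / E.Δ = j ∧ badNorm E ≤ X}

/-- the violators -/
def Vio (K : Type) [Field K] [NumberField K] (κ c X : ℝ) : Set K :=
  {j | ∃ (E : WeierstrassCurve K) (τ : InfinitePlace K → UpperHalfPlane), E.Δ ≠ 0 ∧ FullTwo E ∧
    E.c₄ ^ 3 / E.Δ = j ∧ badNorm E ≤ X ∧ IsPeriod j τ ∧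
    κ * Real.log (badNorm E) + c ≤ Module.finrank ℚ K * faltings j τ}

theorem jj_eq {l j : K} (h0 : l ≠ 0) (h1 : l ≠ 1)
    (h : j * (l ^ 2 * (1 - l) ^ 2) = 256 * (l ^ 2 - l + 1) ^ 3) : JJ (-l) = j := by
  unfold JJ
  rw [div_eq_iff]
  · linear_combination -h
  · have e : 1 + -l = 1 - l := by ring
    rw [e]
    exact mul_ne_zero (pow_ne_zero _ (neg_ne_zero.2 h0)) (pow_ne_zero _ (sub_ne_zero.2 h1.symm))

theorem legC_j {l : K} (h0 : l ≠ 0) (h1 : l ≠ 1) :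
    (legC l).Δ ≠ 0 ∧ (legC l).c₄ ^ 3 / (legC l).Δ = JJ (-l) ∧
      (legC l).c₄ ^ 3 / (legC l).Δ * (l ^ 2 * (1 - l) ^ 2) = 256 * (l ^ 2 - l + 1) ^ 3 := by
  have hd : l ^ 2 * (1 - l) ^ 2 ≠ 0 :=
    mul_ne_zero (pow_ne_zero _ h0) (pow_ne_zero _ (sub_ne_zero.2 h1.symm))
  have hΔ : (legC l).Δ ≠ 0 := by
    rw [legC_disc]
    exact mul_ne_zero (by norm_num) hd
  have h : (legC l).c₄ ^ 3 / (legC l).Δ * (l ^ 2 * (1 - l) ^ 2) = 256 * (l ^ 2 - l + 1) ^ 3 := by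
    rw [legC_disc, legC_c4, div_mul_eq_mul_div, div_eq_iff (mul_ne_zero (by norm_num) hd)]
    ring
  exact ⟨hΔ, (jj_eq h0 h1 h).symm, h⟩

theorem cls_sub (X : ℝ) : Cls K X ⊆ JJ '' ZZ K X := by
  classical
  rintro j ⟨E, hE, h2, hj, hX⟩
  obtain ⟨l, h0, h1, h, hr⟩ := rad_le_bad E hE h2
  rw [hj] at h
  refine ⟨-l, (mem_ZZ _).2 ⟨pt_neg h0 h1, ?_⟩, jj_eq h0 h1 h⟩
  convert hr.trans hX

theorem ne_of_pt {z : K} (hz : Pt z) : -z ≠ 0 ∧ -z ≠ 1 := by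
  refine ⟨neg_ne_zero.2 hz.1, fun h => hz.2 ?_⟩
  linear_combination -h

theorem pt_cls {z : K} (hz : Pt z) {X : ℝ} (h : nn (T2 K) * nn (sp z) ≤ X) : JJ z ∈ Cls K X := by
  obtain ⟨h0, h1⟩ := ne_of_pt hz
  obtain ⟨k1, k2, -⟩ := legC_j h0 h1
  rw [neg_neg] at k2
  refine ⟨legC (-z), k1, legC_two _ h0 h1, k2, ?_⟩
  have := bad_le_rad h0 h1
  rw [neg_neg] at this
  exact this.trans h

/-- the polynomial of the parameters of an invariant -/
noncomputable def QK (y : K) : K[X] := 256 * (X ^ 2 + X + 1) ^ 3 - C y * (X ^ 2 * (1 + X) ^ 2)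

theorem QK_deg (y : K) : (QK y).natDegree ≤ 6 := by
  unfold QK
  compute_degree

theorem QK_ne (y : K) : QK y ≠ 0 := by
  intro h
  have h1 : (QK y).eval 0 = 256 := by
    unfold QK
    simp
  rw [h] at h1
  simp at h1

theorem big (C η : ℝ) (hη : 0 < η) : ∃ X0 : ℝ, 1 ≤ X0 ∧ ∀ X, X0 ≤ X → C ≤ X ^ η := by
  have h := (tendsto_rpow_atTop hη).eventually_ge_atTop C
  obtain ⟨X0, hX⟩ := Filter.eventually_atTop.1 h
  exact ⟨max 1 X0, le_max_left _ _, fun X hX' => hX X ((le_max_right _ _).trans hX')⟩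

theorem cls_finite (K : Type) [Field K] [NumberField K] {X : ℝ} (hX : 1 ≤ X) :
    (Cls K X).Finite := by
  obtain ⟨C, hC, h⟩ := ZZ_count K 1 one_pos
  exact ((h X hX).1.image _).subset (cls_sub X)

theorem cls_upper (K : Type) [Field K] [NumberField K] (δ : ℝ) (hδ : 0 < δ) : ∃ X₀ : ℝ, 1 ≤ X₀ ∧
    ∀ X : ℝ, X₀ ≤ X → ((Cls K X).ncard : ℝ) ≤ X ^ (2 / 3 + δ) := by
  obtain ⟨C, hC, h⟩ := ZZ_count K (δ / 2) (by positivity)
  obtain ⟨X0, hX0, hb⟩ := big C (δ / 2) (by positivity)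
  refine ⟨X0, hX0, fun X hX => ?_⟩
  have hX1 : 1 ≤ X := hX0.trans hX
  have hXp : 0 < X := by linarith
  obtain ⟨h1, h2⟩ := h X hX1
  have h3 : ((Cls K X).ncard : ℝ) ≤ (ZZ K X).ncard := by
    exact_mod_cast (Set.ncard_le_ncard (cls_sub X) (h1.image _)).trans (Set.ncard_image_le h1)
  calc ((Cls K X).ncard : ℝ) ≤ C * X ^ (2 / 3 + δ / 2) := h3.trans h2
    _ ≤ X ^ (δ / 2) * X ^ (2 / 3 + δ / 2) :=
        mul_le_mul_of_nonneg_right (hb X hX) (Real.rpow_nonneg hXp.le _)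
    _ = _ := by
        rw [← Real.rpow_add hXp]
        congr 1
        ring

theorem cls_lower (K : Type) [Field K] [NumberField K] (δ : ℝ) (hδ : 0 < δ) : ∃ X₀ : ℝ, 1 ≤ X₀ ∧
    ∀ X : ℝ, X₀ ≤ X → X ^ (2 / 3 - δ) ≤ ((Cls K X).ncard : ℝ) := by
  classical
  obtain ⟨X1, hX1, h⟩ := Pool.Agent.Y812.lower_pointsK K (δ / 2) (by positivity)
  obtain ⟨t, ht⟩ : ∃ t, t = nn (T2 K) := ⟨_, rfl⟩
  have ht0 : 0 < t := by rw [ht]; exact nn_pos _
  have ht1 : 1 ≤ t := by rw [ht]; exact one_le_nn _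
  obtain ⟨X0, hX0, hb⟩ := big (6 * t ^ (2 / 3 - δ / 2)) (δ / 2) (by positivity)
  refine ⟨max X0 (X1 * t), hX0.trans (le_max_left _ _), fun X hX => ?_⟩
  have hXX : X0 ≤ X := (le_max_left _ _).trans hX
  have hXt : X1 * t ≤ X := (le_max_right _ _).trans hX
  have hX1' : 1 ≤ X := hX0.trans hXX
  have hXp : 0 < X := by linarith
  obtain ⟨F, hF1, hF2⟩ := h (X / t) ((le_div_iff₀ ht0).2 hXt)
  have hsub : ((F.image JJ : Finset K) : Set K) ⊆ Cls K X := by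
    intro j hj
    rw [Finset.mem_coe, Finset.mem_image] at hj
    obtain ⟨z, hz, rfl⟩ := hj
    obtain ⟨h1, h2⟩ := hF1 z hz
    refine pt_cls h1 ?_
    rw [← ht]
    rw [le_div_iff₀ ht0] at h2
    linarith
  have hcard : F.card ≤ 6 * (F.image JJ).card := by
    refine Finset.card_le_mul_card_image F 6 fun y _ => ?_
    have h1 : (F.filter fun z => JJ z = y) ⊆ (QK y).roots.toFinset := by
      intro z hz
      rw [Finset.mem_filter] at hz
      obtain ⟨hz, hy⟩ := hz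
      have hpt := (hF1 z hz).1
      rw [Multiset.mem_toFinset, Polynomial.mem_roots (QK_ne y), Polynomial.IsRoot.def]
      unfold JJ at hy
      have hd : z ^ 2 * (1 + z) ^ 2 ≠ 0 := by
        have e : 1 + z = z + 1 := by ring
        rw [e]
        exact mul_ne_zero (pow_ne_zero _ hpt.1) (pow_ne_zero _ hpt.2)
      rw [div_eq_iff hd] at hy
      unfold QK
      simp only [eval_sub, eval_mul, eval_add, eval_pow, eval_X, eval_one, eval_C, eval_ofNat]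
      linear_combination hy
    calc (F.filter fun z => JJ z = y).card ≤ (QK y).roots.toFinset.card := Finset.card_le_card h1
      _ ≤ Multiset.card (QK y).roots := Multiset.toFinset_card_le _
      _ ≤ (QK y).natDegree := Polynomial.card_roots' _
      _ ≤ 6 := QK_deg y
  have h3 : (F.image JJ).card ≤ (Cls K X).ncard := by
    rw [← Set.ncard_coe_finset]
    exact Set.ncard_le_ncard hsub (cls_finite K hX1')
  have h4 : (F.card : ℝ) ≤ 6 * (Cls K X).ncard := by exact_mod_cast hcard.trans (by omega)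
  have h5 : (X / t) ^ (2 / 3 - δ / 2) = X ^ (2 / 3 - δ / 2) / t ^ (2 / 3 - δ / 2) :=
    Real.div_rpow hXp.le ht0.le _
  rw [h5] at hF2
  have hta : 0 < t ^ (2 / 3 - δ / 2) := Real.rpow_pos_of_pos ht0 _
  have h6 : X ^ (2 / 3 - δ) * (6 * t ^ (2 / 3 - δ / 2)) ≤ X ^ (2 / 3 - δ / 2) := by
    calc X ^ (2 / 3 - δ) * (6 * t ^ (2 / 3 - δ / 2)) ≤ X ^ (2 / 3 - δ) * X ^ (δ / 2) :=
          mul_le_mul_of_nonneg_left (hb X hXX) (Real.rpow_nonneg hXp.le _)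
      _ = _ := by
          rw [← Real.rpow_add hXp]
          congr 1
          ring
  have h7 : 6 * X ^ (2 / 3 - δ) ≤ X ^ (2 / 3 - δ / 2) / t ^ (2 / 3 - δ / 2) := by
    rw [le_div_iff₀ hta]
    linarith
  linarith

open Classical in
theorem vio_sub {κ c X : ℝ} (hκ : 1 / 6 < κ) {A : ℝ} (hA : ∀ (j l : K)
    (τ : InfinitePlace K → UpperHalfPlane), l ≠ 0 → l ≠ 1 → IsPeriod j τ →
      j * (l ^ 2 * (1 - l) ^ 2) = 256 * (l ^ 2 - l + 1) ^ 3 →
      2 * (Module.finrank ℚ K * faltings j τ) - 2 * c ≤ hgt (-l) + A) :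
    Vio K κ c X ⊆ JJ '' ({z : K | Pt z ∧ nn (sp z \ T2 K) ≤ X ∧
      (κ + 1 / 6) * Real.log (nn (sp z \ T2 K)) ≤ hgt z} ∪
      ZZ K (Real.exp (A / (κ - 1 / 6)))) := by
  rintro j ⟨E, τ, hE, h2, hj, hX, hτ, hv⟩
  obtain ⟨l, h0, h1, h, hr⟩ := rad_le_bad E hE h2
  rw [hj] at h
  refine ⟨-l, ?_, jj_eq h0 h1 h⟩
  have k1 := hA j l τ h0 h1 hτ h
  have k2 : Real.log (nn (sp (-l) \ T2 K)) ≤ Real.log (badNorm E) :=
    Real.log_le_log (nn_pos _) hr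
  have hk : 0 < κ - 1 / 6 := by linarith
  by_cases hc : A / (κ - 1 / 6) ≤ Real.log (badNorm E)
  · left
    refine ⟨pt_neg h0 h1, hr.trans hX, ?_⟩
    rw [div_le_iff₀ hk] at hc
    have k3 : (κ + 1 / 6) * Real.log (nn (sp (-l) \ T2 K)) ≤
        (κ + 1 / 6) * Real.log (badNorm E) := mul_le_mul_of_nonneg_left k2 (by linarith)
    linarith
  · right
    rw [not_le] at hc
    refine (mem_ZZ _).2 ⟨pt_neg h0 h1, ?_⟩
    rw [← Real.log_le_iff_le_exp (nn_pos _)]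
    linarith

theorem vio_upper (K : Type) [Field K] [NumberField K] (κ c : ℝ) (hκ : 1 / 6 < κ) :
    ∃ ν C : ℝ, 0 < ν ∧ 0 < C ∧ ∀ X : ℝ, 1 ≤ X →
      ((Vio K κ c X).ncard : ℝ) ≤ C * X ^ (2 / 3 - ν) := by
  classical
  obtain ⟨c1, hc1, hf1⟩ := fal_two
  obtain ⟨c2, hc2, hf2⟩ := six_height
  obtain ⟨A, hAdef⟩ : ∃ A : ℝ, A = (c1 + c2) * Module.finrank ℚ K / 6 + 2 * |c| := ⟨_, rfl⟩
  have hn : (0 : ℝ) ≤ Module.finrank ℚ K := Nat.cast_nonneg _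
  have hA0 : 0 ≤ A := by rw [hAdef]; positivity
  have hA : ∀ (j l : K) (τ : InfinitePlace K → UpperHalfPlane), l ≠ 0 → l ≠ 1 → IsPeriod j τ →
      j * (l ^ 2 * (1 - l) ^ 2) = 256 * (l ^ 2 - l + 1) ^ 3 →
      2 * (Module.finrank ℚ K * faltings j τ) - 2 * c ≤ hgt (-l) + A := by
    intro j l τ h0 h1 hτ h
    have k1 := hf1 K j τ hτ
    have k2 := (hf2 K j l h0 h1 h).2
    have k3 := hgt_ge h0 h1
    have k4 := neg_abs_le c
    rw [hAdef]
    linarith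
  have hk : 0 < κ - 1 / 6 := by linarith
  obtain ⟨ν, hν, C, hC, he⟩ := exc_set K (M := κ + 1 / 6) (by linarith)
  obtain ⟨C1, hC1, hz⟩ := ZZ_count K 1 one_pos
  have hR : 1 ≤ Real.exp (A / (κ - 1 / 6)) := Real.one_le_exp (by positivity)
  have hfin := (hz _ hR).1
  refine ⟨min ν (2 / 3), C + (ZZ K (Real.exp (A / (κ - 1 / 6)))).ncard, by positivity,
    by positivity, fun X hX => ?_⟩
  obtain ⟨h1, h2⟩ := he X hX
  have h3 := Set.ncard_le_ncard (vio_sub (c := c) (X := X) hκ hA) ((h1.union hfin).image _)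
  have h4 := h3.trans (Set.ncard_image_le (h1.union hfin))
  have h5 := h4.trans (Set.ncard_union_le _ _)
  have h6 : ((Vio K κ c X).ncard : ℝ) ≤ C * X ^ (2 / 3 - ν) +
      (ZZ K (Real.exp (A / (κ - 1 / 6)))).ncard := by
    refine le_trans (by exact_mod_cast h5) (add_le_add_left h2 _)
  have h7 : X ^ (2 / 3 - ν) ≤ X ^ (2 / 3 - min ν (2 / 3)) :=
    Real.rpow_le_rpow_of_exponent_le hX (by linarith [min_le_left ν (2 / 3)])
  have h8 : 1 ≤ X ^ (2 / 3 - min ν (2 / 3)) :=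
    Real.one_le_rpow hX (by linarith [min_le_right ν (2 / 3)])
  have h9 : (0 : ℝ) ≤ (ZZ K (Real.exp (A / (κ - 1 / 6)))).ncard := Nat.cast_nonneg _
  nlinarith

/-- almost all -/
theorem almost (K : Type) [Field K] [NumberField K] (κ c : ℝ) (hκ : 1 / 6 < κ) :
    ∃ ν X₀ : ℝ, 0 < ν ∧ ∀ X : ℝ, X₀ ≤ X →
      ((Vio K κ c X).ncard : ℝ) ≤ X ^ (-ν) * (Cls K X).ncard := by
  obtain ⟨ν, C, hν, hC, h1⟩ := vio_upper K κ c hκ
  obtain ⟨X1, hX1, h2⟩ := cls_lower K (ν / 2) (by positivity)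
  obtain ⟨X2, hX2, h3⟩ := big C (ν / 4) (by positivity)
  refine ⟨ν / 4, max X1 X2, by positivity, fun X hX => ?_⟩
  have k1 : X1 ≤ X := (le_max_left _ _).trans hX
  have k2 : X2 ≤ X := (le_max_right _ _).trans hX
  have hX1' : 1 ≤ X := hX1.trans k1
  have hX0 : 0 < X := by linarith
  calc ((Vio K κ c X).ncard : ℝ) ≤ C * X ^ (2 / 3 - ν) := h1 X hX1'
    _ ≤ X ^ (ν / 4) * X ^ (2 / 3 - ν) :=
        mul_le_mul_of_nonneg_right (h3 X k2) (Real.rpow_nonneg hX0.le _)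
    _ = X ^ (-(ν / 4)) * X ^ (2 / 3 - ν / 2) := by
        rw [← Real.rpow_add hX0, ← Real.rpow_add hX0]
        congr 1
        ring
    _ ≤ _ := mul_le_mul_of_nonneg_left (h2 X k1) (Real.rpow_nonneg hX0.le _)

/-- the slope is optimal for all but finitely many invariants -/
theorem sharp (K : Type) [Field K] [NumberField K] (κ c : ℝ) (hκ : κ < 1 / 6) :
    ∃ F : Set K, F.Finite ∧ ∀ E : WeierstrassCurve K, E.Δ ≠ 0 → FullTwo E →
      E.c₄ ^ 3 / E.Δ ∉ F → ∃ E' : WeierstrassCurve K, E'.Δ ≠ 0 ∧ FullTwo E' ∧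
        E'.c₄ ^ 3 / E'.Δ = E.c₄ ^ 3 / E.Δ ∧ ∀ τ : InfinitePlace K → UpperHalfPlane,
          IsPeriod (E.c₄ ^ 3 / E.Δ) τ → κ * Real.log (badNorm E') + c <
            Module.finrank ℚ K * faltings (E.c₄ ^ 3 / E.Δ) τ := by
  classical
  obtain ⟨k, hk⟩ : ∃ k, k = max κ 0 := ⟨_, rfl⟩
  have hk0 : 0 ≤ k := by rw [hk]; exact le_max_right _ _
  have hkκ : κ ≤ k := by rw [hk]; exact le_max_left _ _
  have hk1 : k < 1 / 6 := by rw [hk]; exact max_lt hκ (by norm_num)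
  obtain ⟨δ, hδ⟩ : ∃ δ, δ = (1 - 6 * k) / 2 := ⟨_, rfl⟩
  have hδ0 : 0 < δ := by rw [hδ]; linarith
  obtain ⟨c1, hc1, hf1⟩ := fal_one hδ0
  obtain ⟨c2, hc2, hf2⟩ := six_height
  obtain ⟨n, hn⟩ : ∃ n : ℝ, n = Module.finrank ℚ K := ⟨_, rfl⟩
  have hn0 : 0 ≤ n := by rw [hn]; exact Nat.cast_nonneg _
  have hT := one_le_nn (T2 K)
  have hTl : 0 ≤ Real.log (nn (T2 K)) := Real.log_nonneg hT
  have hl2 : 0 ≤ Real.log 2 := Real.log_nonneg (by norm_num)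
  obtain ⟨A1, hA1⟩ : ∃ A1, A1 = Real.log (nn (T2 K)) + 3 * (n * Real.log 2) := ⟨_, rfl⟩
  have hA10 : 0 ≤ A1 := by rw [hA1]; positivity
  obtain ⟨H0, hH0⟩ : ∃ H0, H0 = (12 * (1 + δ) * (k * A1 + |c|) + (c1 + c2) * n) /
      (3 * (1 - 6 * k)) := ⟨_, rfl⟩
  have hk6 : 0 < 1 - 6 * k := by linarith
  have hH00 : 0 ≤ H0 := by rw [hH0]; positivity
  obtain ⟨C1, hC1, hz⟩ := ZZ_count K 1 one_pos
  have hR : 1 ≤ Real.exp (3 * (H0 + n * Real.log 2)) := Real.one_le_exp (by positivity)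
  refine ⟨JJ '' ZZ K (Real.exp (3 * (H0 + n * Real.log 2))), (hz _ hR).1.image _, ?_⟩
  intro E hE h2 hj
  obtain ⟨l, h0, h1, h, -⟩ := rad_le_bad E hE h2
  obtain ⟨q1, q2, q3⟩ := legC_j h0 h1
  have q4 : JJ (-l) = E.c₄ ^ 3 / E.Δ := jj_eq h0 h1 h
  refine ⟨legC l, q1, legC_two _ h0 h1, by rw [q2, q4], fun τ hτ => ?_⟩
  have hpt := pt_neg h0 h1
  have hz2 : -l ∉ ZZ K (Real.exp (3 * (H0 + n * Real.log 2))) := fun hc => hj ⟨-l, hc, q4⟩
  have hz3 : Real.exp (3 * (H0 + n * Real.log 2)) < nn (sp (-l) \ T2 K) := by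
    by_contra hc
    exact hz2 ((mem_ZZ _).2 ⟨hpt, not_lt.1 hc⟩)
  have hz4 : 3 * (H0 + n * Real.log 2) < Real.log (nn (sp (-l) \ T2 K)) :=
    (Real.lt_log_iff_exp_lt (nn_pos _)).2 hz3
  have hz5 : Real.log (nn (sp (-l) \ T2 K)) ≤ Real.log (nn (sp (-l))) :=
    Real.log_le_log (nn_pos _) (nn_mono Finset.sdiff_subset)
  have hz6 := Pool.Agent.Y728.AK.rad_le_three hpt
  have hz7 := hgt_le h0 h1
  rw [← hn] at hz7
  have hH : H0 < Height.logHeight₁ l := by linarith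
  have hb1 := bad_le_rad h0 h1
  have hbp : 1 ≤ badNorm (legC l) := by
    have hbad := Pool.Agent.TH876.TT.bad K (legC l) q1
    have e1 : badNorm (legC l) = nn hbad.toFinset := by
      unfold badNorm nn
      rw [finprod_mem_eq_finite_toFinset_prod _ hbad]
      rfl
    rw [e1]
    exact one_le_nn _
  have hlb0 : 0 ≤ Real.log (badNorm (legC l)) := Real.log_nonneg hbp
  have hlb : Real.log (badNorm (legC l)) ≤ A1 + 3 * Height.logHeight₁ l := by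
    have e1 := Real.log_le_log (by linarith : 0 < badNorm (legC l)) hb1
    rw [Real.log_mul (nn_pos _).ne' (nn_pos _).ne'] at e1
    rw [hA1]
    linarith
  have r1 := hf1 K _ τ hτ
  have r2 := (hf2 K _ l h0 h1 h).1
  rw [← hn] at r1 r2
  rw [← hn]
  obtain ⟨f, hf⟩ : ∃ f, f = faltings (E.c₄ ^ 3 / E.Δ) τ := ⟨_, rfl⟩
  rw [← hf] at r1 ⊢
  obtain ⟨H, hHd⟩ : ∃ H, H = Height.logHeight₁ l := ⟨_, rfl⟩
  rw [← hHd] at hH hlb r2
  have s1 : κ * Real.log (badNorm (legC l)) ≤ k * (A1 + 3 * H) :=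
    (mul_le_mul_of_nonneg_right hkκ hlb0).trans (mul_le_mul_of_nonneg_left hlb hk0)
  have s2 : 12 * (1 + δ) * (k * A1 + |c|) + (c1 + c2) * n < H * (3 * (1 - 6 * k)) := by
    rw [hH0, div_lt_iff₀ (by positivity)] at hH
    exact hH
  have s3 : 6 * k * (1 + δ) ≤ (1 + 6 * k) / 2 := by
    rw [hδ]
    nlinarith
  have hHpos : 0 ≤ H := hH00.trans hH.le
  have s4 : H * (3 * (1 - 6 * k)) ≤ H * (6 - 36 * k * (1 + δ)) := by
    apply mul_le_mul_of_nonneg_left _ hHpos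
    linarith
  have s5 : (1 + δ) * (12 * (k * (A1 + 3 * H) + c)) < (1 + δ) * (12 * (n * f)) := by
    have s6 := le_abs_self c
    have s7 : (1 + δ) * c ≤ (1 + δ) * |c| := mul_le_mul_of_nonneg_left s6 (by linarith)
    nlinarith
  have s8 := lt_of_mul_lt_mul_left s5 (by linarith)
  linarith

end Pool.Agent.Y729.AH
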