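import Mathlib
import Pool.Agent.Y729.AE.Min
import Pool.Agent.Y729.AH.Main

/-!
# Elliptic curves with full two-torsion: local analysis with twists
-/

set_option autoImplicit false

namespace Pool.Agent.Y729.AH

open NumberField IsDedekindDomain Finset WithZero
open Pool.Agent.H691R3 (fv fv_na fv_zpow)
open Pool.Agent.TH876.Loc
open Pool.Agent.TH876.FH (faltings IsPeriod FullTwo GoodAt badNorm jInv)
open Pool.Agent.Y729.FW (fv_eq_one_iff v_b v_int coeffs disc_c4 root_change lp lp_nonneg)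
open Pool.Agent.Y729.AE (IntAt discExp disc_spec fv_exp fv_le_one fv_val one_lt_N val_exp int_disc)

section alg

variable {K : Type} [Field K]

/-- the curve `y ^ 2 = x (x - a) (x - b)` -/
def EE (a b : K) : WeierstrassCurve K := ⟨0, -(a + b), 0, a * b, 0⟩

/-- the polynomial of the points of order two -/
def Rt (E : WeierstrassCurve K) (x : K) : Prop :=
  4 * x ^ 3 + E.b₂ * x ^ 2 + 2 * E.b₄ * x + E.b₆ = 0

/-- the differences of the roots -/
def Pm (E : WeierstrassCurve K) (a b : K) : Prop :=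
  a ≠ 0 ∧ b ≠ 0 ∧ a ≠ b ∧ ∃ x : K, Rt E x ∧ Rt E (x + a) ∧ Rt E (x + b)

theorem pm_of_two {E : WeierstrassCurve K} (h : FullTwo E) : ∃ a b, Pm E a b := by
  obtain ⟨e, he, hr⟩ := h
  have h01 : e 1 ≠ e 0 := fun h => absurd (he h) (by decide)
  have h02 : e 2 ≠ e 0 := fun h => absurd (he h) (by decide)
  have h12 : e 1 ≠ e 2 := fun h => absurd (he h) (by decide)
  refine ⟨e 1 - e 0, e 2 - e 0, sub_ne_zero.2 h01, sub_ne_zero.2 h02,
    fun h => h12 (sub_left_injective h), e 0, hr 0, ?_, ?_⟩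
  · rw [add_sub_cancel]
    exact hr 1
  · rw [add_sub_cancel]
    exact hr 2

theorem two_of_pm {E : WeierstrassCurve K} {a b : K} (h : Pm E a b) : FullTwo E := by
  obtain ⟨ha, hb, hab, x, h0, h1, h2⟩ := h
  refine ⟨![x, x + a, x + b], ?_, ?_⟩
  · intro i j hij
    fin_cases i <;> fin_cases j <;> simp_all
  · intro i
    fin_cases i
    · exact h0
    · exact h1
    · exact h2

theorem pm_EE {a b : K} (ha : a ≠ 0) (hb : b ≠ 0) (hab : a ≠ b) : Pm (EE a b) a b := by
  refine ⟨ha, hb, hab, 0, ?_, ?_, ?_⟩ <;>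
  · unfold Rt EE WeierstrassCurve.b₂ WeierstrassCurve.b₄ WeierstrassCurve.b₆
    ring

theorem pm_change {E : WeierstrassCurve K} {a b : K} (h : Pm E a b)
    (C : WeierstrassCurve.VariableChange K) :
    Pm (C • E) (((C.u⁻¹ : Kˣ) : K) ^ 2 * a) (((C.u⁻¹ : Kˣ) : K) ^ 2 * b) := by
  obtain ⟨ha, hb, hab, x, h0, h1, h2⟩ := h
  have hu : ((C.u⁻¹ : Kˣ) : K) ^ 2 ≠ 0 := pow_ne_zero _ (Units.ne_zero _)
  refine ⟨mul_ne_zero hu ha, mul_ne_zero hu hb, fun h => hab (mul_left_cancel₀ hu h),
    ((C.u⁻¹ : Kˣ) : K) ^ 2 * (x - C.r), root_change E C h0, ?_, ?_⟩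
  · have := root_change E C h1
    unfold Rt
    have e : ((C.u⁻¹ : Kˣ) : K) ^ 2 * (x - C.r) + ((C.u⁻¹ : Kˣ) : K) ^ 2 * a =
        ((C.u⁻¹ : Kˣ) : K) ^ 2 * (x + a - C.r) := by ring
    rw [e]
    exact this
  · have := root_change E C h2
    unfold Rt
    have e : ((C.u⁻¹ : Kˣ) : K) ^ 2 * (x - C.r) + ((C.u⁻¹ : Kˣ) : K) ^ 2 * b =
        ((C.u⁻¹ : Kˣ) : K) ^ 2 * (x + b - C.r) := by ring
    rw [e]
    exact this

variable [CharZero K]

theorem pm_coeffs {E : WeierstrassCurve K} {a b : K} (h : Pm E a b) : ∃ x : K,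
    E.b₂ = -4 * (x + (x + a) + (x + b)) ∧
    E.b₄ = 2 * (x * (x + a) + x * (x + b) + (x + a) * (x + b)) ∧
    E.b₆ = -4 * (x * (x + a) * (x + b)) := by
  obtain ⟨ha, hb, hab, x, h0, h1, h2⟩ := h
  refine ⟨x, coeffs (x := x) (y := x + a) (z := x + b) ?_ ?_ ?_ h0 h1 h2⟩
  · intro h
    apply ha
    linear_combination -h
  · intro h
    apply hb
    linear_combination -h
  · intro h
    apply hab
    linear_combination h

theorem pm_disc {E : WeierstrassCurve K} {a b : K} (h : Pm E a b) :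
    E.Δ = 16 * (a ^ 2 * b ^ 2 * (a - b) ^ 2) ∧ E.c₄ = 16 * (a ^ 2 - a * b + b ^ 2) := by
  obtain ⟨x, h2, h4, h6⟩ := pm_coeffs h
  obtain ⟨k1, k2⟩ := disc_c4 E h2 h4 h6
  constructor
  · rw [k1]; ring
  · rw [k2]; ring

/-- the normal form -/
theorem pm_iso {E : WeierstrassCurve K} {a b : K} (h : Pm E a b) :
    ∃ C : WeierstrassCurve.VariableChange K, C • E = EE a b := by
  obtain ⟨x, h2, h4, h6⟩ := pm_coeffs h
  refine ⟨⟨1, x, -E.a₁ / 2, -(E.a₃ + x * E.a₁) / 2⟩, ?_⟩
  have two0 : (2 : K) ≠ 0 := two_ne_zero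
  rw [WeierstrassCurve.b₂] at h2
  rw [WeierstrassCurve.b₄] at h4
  rw [WeierstrassCurve.b₆] at h6
  have four0 : (4 : K) ≠ 0 := by norm_num
  ext
  · rw [WeierstrassCurve.variableChange_a₁]
    show _ = (0 : K)
    simp only [inv_one, Units.val_one, one_mul]
    field_simp
    ring
  · rw [WeierstrassCurve.variableChange_a₂]
    show _ = -(a + b)
    simp only [inv_one, Units.val_one, one_pow, one_mul]
    apply mul_left_cancel₀ four0
    field_simp
    linear_combination h2
  · rw [WeierstrassCurve.variableChange_a₃]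
    show _ = (0 : K)
    simp only [inv_one, Units.val_one, one_pow, one_mul]
    field_simp
    ring
  · rw [WeierstrassCurve.variableChange_a₄]
    show _ = a * b
    simp only [inv_one, Units.val_one, one_pow, one_mul]
    apply mul_left_cancel₀ four0
    field_simp
    linear_combination x * h2 + h4
  · rw [WeierstrassCurve.variableChange_a₆]
    show _ = (0 : K)
    simp only [inv_one, Units.val_one, one_pow, one_mul]
    apply mul_left_cancel₀ four0
    field_simp
    linear_combination x ^ 2 * h2 + 2 * x * h4 + h6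

/-- twisting by a square -/
theorem EE_scale {a b g : K} (hg : g ≠ 0) :
    ∃ C : WeierstrassCurve.VariableChange K, C • (EE (g ^ 2 * a) (g ^ 2 * b)) = EE a b := by
  refine ⟨⟨Units.mk0 g hg, 0, 0, 0⟩, ?_⟩
  have hu : (((Units.mk0 g hg)⁻¹ : Kˣ) : K) = g⁻¹ := by simp
  ext
  · rw [WeierstrassCurve.variableChange_a₁, hu]
    show g⁻¹ * (0 + 2 * 0) = 0
    ring
  · rw [WeierstrassCurve.variableChange_a₂, hu]
    show g⁻¹ ^ 2 * (-(g ^ 2 * a + g ^ 2 * b) - 0 * 0 + 3 * 0 - 0 ^ 2) = -(a + b)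
    field_simp
    ring
  · rw [WeierstrassCurve.variableChange_a₃, hu]
    show g⁻¹ ^ 3 * (0 + 0 * 0 + 2 * 0) = 0
    ring
  · rw [WeierstrassCurve.variableChange_a₄, hu]
    show g⁻¹ ^ 4 * (g ^ 2 * a * (g ^ 2 * b) - 0 * 0 + 2 * 0 * (-(g ^ 2 * a + g ^ 2 * b)) -
      (0 + 0 * 0) * 0 + 3 * 0 ^ 2 - 2 * 0 * 0) = a * b
    field_simp
    ring
  · rw [WeierstrassCurve.variableChange_a₆, hu]
    show g⁻¹ ^ 6 * (0 + 0 * (g ^ 2 * a * (g ^ 2 * b)) + 0 ^ 2 * (-(g ^ 2 * a + g ^ 2 * b)) + 0 ^ 3 -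
      0 * 0 - 0 ^ 2 - 0 * 0 * 0) = 0
    ring

end alg

section ultra

variable {K : Type} [Field K] (f : AbsoluteValue K ℝ) (hna : ∀ a b : K, f (a + b) ≤ max (f a) (f b))

include hna

theorem na_lt {a b : K} (h : f a < f b) : f (a + b) = f b := by
  apply le_antisymm
  · exact (hna a b).trans (max_le h.le le_rfl)
  · have h1 := hna (a + b) (-a)
    rw [add_neg_cancel_comm, f.map_neg] at h1
    rcases le_max_iff.1 h1 with h2 | h2
    · exact h2
    · exact absurd h2 (not_le.2 h)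

theorem na_sub (a b : K) : f (a - b) ≤ max (f a) (f b) := by
  have := hna a (-b)
  rwa [f.map_neg, ← sub_eq_add_neg] at this

/-- either all differences have the same value, or the quadratic form is large -/
theorem form_val (a b : K) : f (a ^ 2 - a * b + b ^ 2) ≤ (max (f a) (f b)) ^ 2 ∧
    ((f a = max (f a) (f b) ∧ f b = max (f a) (f b) ∧ f (a - b) = max (f a) (f b)) ∨
      f (a ^ 2 - a * b + b ^ 2) = (max (f a) (f b)) ^ 2) := by
  obtain ⟨μ, hμ⟩ : ∃ μ, μ = max (f a) (f b) := ⟨_, rfl⟩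
  rw [← hμ]
  have ha : f a ≤ μ := by rw [hμ]; exact le_max_left _ _
  have hb : f b ≤ μ := by rw [hμ]; exact le_max_right _ _
  have hg : f (a - b) ≤ μ := by rw [hμ]; exact na_sub f hna a b
  have ha0 := f.nonneg a
  have hb0 := f.nonneg b
  have hg0 := f.nonneg (a - b)
  have e1 : a ^ 2 - a * b + b ^ 2 = (a - b) ^ 2 + a * b := by ring
  have e2 : a ^ 2 - a * b + b ^ 2 = a * (a - b) + b ^ 2 := by ring
  have e3 : a ^ 2 - a * b + b ^ 2 = b * (b - a) + a ^ 2 := by ring
  constructor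
  · rw [e1]
    refine (hna _ _).trans (max_le ?_ ?_)
    · rw [map_pow]
      exact pow_le_pow_left₀ hg0 hg 2
    · rw [map_mul, sq]
      exact mul_le_mul ha hb hb0 (ha0.trans ha)
  · by_cases h1 : f a < μ
    · right
      have hb' : f b = μ := by
        rcases max_choice (f a) (f b) with h | h
        · rw [h] at hμ
          linarith
        · rw [h] at hμ
          exact hμ.symm
      have h2 : f (a * (a - b)) < f (b ^ 2) := by
        rw [map_mul, map_pow, hb', sq]
        calc f a * f (a - b) ≤ f a * μ := mul_le_mul_of_nonneg_left hg ha0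
          _ < μ * μ := mul_lt_mul_of_pos_right h1 (by linarith)
      rw [e2, na_lt f hna h2, map_pow, hb']
    · have ha' : f a = μ := le_antisymm ha (not_lt.1 h1)
      by_cases h3 : f b < μ
      · right
        have h2 : f (b * (b - a)) < f (a ^ 2) := by
          rw [map_mul, map_pow, ha', sq, f.map_sub b a]
          calc f b * f (a - b) ≤ f b * μ := mul_le_mul_of_nonneg_left hg hb0
            _ < μ * μ := mul_lt_mul_of_pos_right h3 (by linarith)
        rw [e3, na_lt f hna h2, map_pow, ha']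
      · have hb' : f b = μ := le_antisymm hb (not_lt.1 h3)
        by_cases h4 : f (a - b) < μ
        · right
          have h2 : f ((a - b) ^ 2) < f (a * b) := by
            rw [map_mul, map_pow, ha', hb', sq]
            calc f (a - b) * f (a - b) ≤ f (a - b) * μ := mul_le_mul_of_nonneg_left hg hg0
              _ < μ * μ := mul_lt_mul_of_pos_right h4 (by linarith)
          rw [e1, na_lt f hna h2, map_mul, ha', hb', sq]
        · left
          exact ⟨ha', hb', le_antisymm hg (not_lt.1 h4)⟩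

/-- the discriminant from above and from below -/
theorem disc_two {a b D c : K} (ha : a ≠ 0) (hb : b ≠ 0) (hab : a ≠ b) (h16 : (16 : K) ≠ 0)
    (h16' : f 16 ≤ 1) (hD : D = 16 * (a ^ 2 * b ^ 2 * (a - b) ^ 2))
    (hc : c = 16 * (a ^ 2 - a * b + b ^ 2)) :
    -Real.log (f D) ≤ lp f (c ^ 3 / D) - 6 * Real.log (max (f a) (f b)) - 3 * Real.log (f 16) ∧
    (f 16 = 1 → lp f (c ^ 3 / D) - 6 * Real.log (max (f a) (f b)) ≤ -Real.log (f D)) := by
  obtain ⟨hq, hcase⟩ := form_val f hna a b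
  obtain ⟨μ, hμ⟩ : ∃ μ, μ = max (f a) (f b) := ⟨_, rfl⟩
  rw [← hμ] at hq hcase ⊢
  have ha0 : 0 < f a := f.pos ha
  have hb0 : 0 < f b := f.pos hb
  have hab' : a - b ≠ 0 := sub_ne_zero.2 hab
  have hg0 : 0 < f (a - b) := f.pos hab'
  have hμ0 : 0 < μ := by rw [hμ]; exact lt_max_of_lt_left ha0
  have ham : f a ≤ μ := by rw [hμ]; exact le_max_left _ _
  have hbm : f b ≤ μ := by rw [hμ]; exact le_max_right _ _
  have hgm : f (a - b) ≤ μ := by rw [hμ]; exact na_sub f hna a b
  have h16p : 0 < f 16 := f.pos h16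
  have hl16 : Real.log (f 16) ≤ 0 := Real.log_nonpos h16p.le h16'
  obtain ⟨P, hP⟩ : ∃ P, P = f a * f b * f (a - b) := ⟨_, rfl⟩
  have hP0 : 0 < P := by rw [hP]; positivity
  have hPm : P ≤ μ ^ 3 := by
    rw [hP]
    calc f a * f b * f (a - b) ≤ μ * μ * μ := by gcongr
      _ = μ ^ 3 := by ring
  have hfD : f D = f 16 * P ^ 2 := by
    rw [hD, hP]
    simp only [map_mul, map_pow]
    ring
  have hlD : Real.log (f D) = Real.log (f 16) + 2 * Real.log P := by
    rw [hfD, Real.log_mul h16p.ne' (by positivity), Real.log_pow]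
    norm_num
  have hlP : Real.log P ≤ 3 * Real.log μ := by
    have := Real.log_le_log hP0 hPm
    rw [Real.log_pow] at this
    exact_mod_cast this
  have hlp0 := lp_nonneg f (c ^ 3 / D)
  have hfj : f (c ^ 3 / D) = f 16 ^ 2 * f (a ^ 2 - a * b + b ^ 2) ^ 3 / P ^ 2 := by
    rw [map_div₀, hfD, hc, map_pow, map_mul]
    field_simp
  rcases hcase with ⟨k1, k2, k3⟩ | k
  · have hPe : P = μ ^ 3 := by rw [hP, k1, k2, k3]; ring
    have hlPe : Real.log P = 3 * Real.log μ := by
      rw [hPe, Real.log_pow]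
      norm_num
    constructor
    · rw [hlD, hlPe]
      linarith
    · intro h1
      have h2 : lp f (c ^ 3 / D) = 0 := by
        unfold Pool.Agent.Y729.FW.lp
        rw [max_eq_right, Real.log_one]
        rw [hfj, h1, one_pow, one_mul, div_le_one (by positivity), hPe]
        calc f (a ^ 2 - a * b + b ^ 2) ^ 3 ≤ (μ ^ 2) ^ 3 := pow_le_pow_left₀ (f.nonneg _) hq 3
          _ = (μ ^ 3) ^ 2 := by ring
      rw [h2, hlD, hlPe, h1, Real.log_one]
      linarith
  · have hlj : Real.log (f (c ^ 3 / D)) =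
        2 * Real.log (f 16) + 6 * Real.log μ - 2 * Real.log P := by
      rw [hfj, k, Real.log_div (by positivity) (by positivity),
        Real.log_mul (by positivity) (by positivity), Real.log_pow, Real.log_pow, Real.log_pow,
        Real.log_pow]
      push_cast
      ring
    constructor
    · have h1 : Real.log (f (c ^ 3 / D)) ≤ lp f (c ^ 3 / D) := by
        unfold Pool.Agent.Y729.FW.lp
        refine Real.log_le_log ?_ (le_max_left _ _)
        rw [hfj, k]
        positivity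
      rw [hlD]
      linarith
    · intro h1
      have h2 : lp f (c ^ 3 / D) = Real.log (f (c ^ 3 / D)) := by
        unfold Pool.Agent.Y729.FW.lp
        rw [max_eq_left]
        rw [hfj, h1, one_pow, one_mul, k, le_div_iff₀ (by positivity), one_mul]
        calc P ^ 2 ≤ (μ ^ 3) ^ 2 := pow_le_pow_left₀ hP0.le hPm 2
          _ = (μ ^ 2) ^ 3 := by ring
      rw [h2, hlj, hlD, h1, Real.log_one]
      linarith

end ultra

end Pool.Agent.Y729.AH
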