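import Mathlib
import Pool.Agent.Y729.AH.TwLoc

/-!
# Elliptic curves with full two-torsion: the conductor and the minimal discriminant
-/

set_option autoImplicit false

namespace Pool.Agent.Y729.AH

open NumberField IsDedekindDomain Finset WithZero
open Pool.Agent.H691R3 (fv fv_na fv_zpow)
open Pool.Agent.TH876.Loc
open Pool.Agent.TH876.FH (faltings IsPeriod FullTwo GoodAt badNorm jInv)
open Pool.Agent.Y729.FW (fv_eq_one_iff v_b v_int coeffs disc_c4 root_change lp lp_nonneg logN_nonneg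
  lp_support)
open Pool.Agent.Y729.AE (IntAt discExp disc_spec fv_exp fv_le_one fv_val one_lt_N val_exp int_disc
  disc_support lp_le_disc)

variable {K : Type} [Field K] [NumberField K]

/-- semistable reduction at `v` -/
def SemiAt (v : Pr K) (E : WeierstrassCurve K) : Prop :=
  ∃ C : WeierstrassCurve.VariableChange K,
    v.valuation K (C • E).a₁ ≤ 1 ∧ v.valuation K (C • E).a₂ ≤ 1 ∧ v.valuation K (C • E).a₃ ≤ 1 ∧
    v.valuation K (C • E).a₄ ≤ 1 ∧ v.valuation K (C • E).a₆ ≤ 1 ∧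
    (v.valuation K (C • E).Δ = 1 ∨ v.valuation K (C • E).c₄ = 1)

theorem fv_le_iff (v : Pr K) (x : K) : fv v x ≤ 1 ↔ v.valuation K x ≤ 1 := by
  rw [fv_val]
  have := WithZeroMulInt.toNNReal_le_one_iff (e := (Ideal.absNorm v.asIdeal : NNReal))
    (m := v.valuation K x)
    (by exact_mod_cast NumberField.HeightOneSpectrum.one_lt_absNorm v)
  rw [← this]
  norm_cast

theorem fv_sixteen (v : Pr K) (h : fv v 2 = 1) : fv v 16 = 1 := by
  have : (16 : K) = 2 ^ 4 := by norm_num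
  rw [this, map_pow, h, one_pow]

theorem fv_sixteen_le (v : Pr K) : fv v 16 ≤ 1 := by
  have := Pool.Agent.Y729.FW.fv_natCast_le v 16 (K := K)
  exact_mod_cast this

theorem int_EE (v : Pr K) {a b : K} (ha : fv v a ≤ 1) (hb : fv v b ≤ 1) : IntAt v (EE a b) := by
  have k0 : v.valuation K (0 : K) ≤ 1 := by rw [map_zero]; exact zero_le
  refine ⟨k0, ?_, k0, ?_, k0⟩
  · show v.valuation K (-(a + b)) ≤ 1
    rw [← fv_le_iff, (fv v).map_neg]
    exact (fv_na v _ _).trans (max_le ha hb)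
  · show v.valuation K (a * b) ≤ 1
    rw [← fv_le_iff, map_mul]
    exact mul_le_one₀ ha ((fv v).nonneg _) hb

theorem pm_int (v : Pr K) {E : WeierstrassCurve K} {a b : K} (h2 : fv v 2 = 1) (h : IntAt v E)
    (hp : Pm E a b) : fv v a ≤ 1 ∧ fv v b ≤ 1 := by
  obtain ⟨ha, hb, hab, x, r0, r1, r2⟩ := hp
  rw [fv_eq_one_iff] at h2
  obtain ⟨i1, i2, i3, i4, i6⟩ := h
  obtain ⟨q2, q4, q6⟩ := v_b _ h2 E i1 i2 i3 i4 i6
  have k0 := v_int _ h2 q2 q4 q6 r0
  have k1 := v_int _ h2 q2 q4 q6 r1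
  have k2 := v_int _ h2 q2 q4 q6 r2
  rw [← fv_le_iff] at k0 k1 k2
  constructor
  · have e : a = (x + a) - x := by ring
    rw [e]
    exact (na_sub (fv v) (fv_na v) _ _).trans (max_le k1 k0)
  · have e : b = (x + b) - x := by ring
    rw [e]
    exact (na_sub (fv v) (fv_na v) _ _).trans (max_le k2 k0)

/-- the models -/
theorem model {E : WeierstrassCurve K} {a b g : K} (hp : Pm E a b) (hg : g ≠ 0) :
    ∃ C : WeierstrassCurve.VariableChange K, C • E = EE (g ^ 2 * a) (g ^ 2 * b) := by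
  obtain ⟨C1, h1⟩ := pm_iso hp
  obtain ⟨C2, h2⟩ := EE_scale (a := g ^ 2 * a) (b := g ^ 2 * b) (inv_ne_zero hg)
  refine ⟨C2 * C1, ?_⟩
  rw [mul_smul, h1, ← h2]
  congr 2
  · field_simp
  · field_simp

theorem max_scale (v : Pr K) (g a b : K) :
    max (fv v (g ^ 2 * a)) (fv v (g ^ 2 * b)) = fv v g ^ 2 * max (fv v a) (fv v b) := by
  rw [map_mul, map_mul, map_pow, mul_max_of_nonneg _ _ (by positivity)]

/-- a model with unit differences is semistable -/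
theorem unit_case (v : Pr K) {E : WeierstrassCurve K} {a b : K} (h2 : fv v 2 = 1)
    (hp : Pm E a b) (hm : max (fv v a) (fv v b) = 1) :
    v.valuation K E.Δ = 1 ∨ v.valuation K E.c₄ = 1 := by
  obtain ⟨k1, k2⟩ := pm_disc hp
  rw [← fv_eq_one_iff, ← fv_eq_one_iff, k1, k2]
  obtain ⟨-, h | h⟩ := form_val (fv v) (fv_na v) a b
  · left
    rw [hm] at h
    simp only [map_mul, map_pow, fv_sixteen v h2, h.1, h.2.1, h.2.2]
    norm_num
  · right
    rw [hm] at h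
    rw [map_mul, fv_sixteen v h2, h]
    norm_num

/-- semistability in terms of the differences of the roots -/
theorem semi_iff (v : Pr K) {E : WeierstrassCurve K} {a b : K} (h2 : fv v 2 = 1)
    (hp : Pm E a b) :
    SemiAt v E ↔ ∃ u : K, u ≠ 0 ∧ max (fv v a) (fv v b) = fv v u ^ 2 := by
  constructor
  · rintro ⟨C, i1, i2, i3, i4, i6, hu⟩
    have hp' := pm_change hp C
    obtain ⟨U, hU⟩ : ∃ U : K, U = ((C.u⁻¹ : Kˣ) : K) := ⟨_, rfl⟩
    have hU0 : U ≠ 0 := by rw [hU]; exact Units.ne_zero _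
    rw [← hU] at hp'
    obtain ⟨j1, j2⟩ := pm_int v h2 ⟨i1, i2, i3, i4, i6⟩ hp'
    have hm : max (fv v (U ^ 2 * a)) (fv v (U ^ 2 * b)) = 1 := by
      refine le_antisymm (max_le j1 j2) ?_
      by_contra hc
      rw [not_le] at hc
      obtain ⟨k1, k2⟩ := pm_disc hp'
      have ma : fv v (U ^ 2 * a) < 1 := lt_of_le_of_lt (le_max_left _ _) hc
      have mb : fv v (U ^ 2 * b) ≤ 1 := j2
      have mg : fv v (U ^ 2 * a - U ^ 2 * b) ≤ 1 :=
        (na_sub (fv v) (fv_na v) _ _).trans (max_le j1 j2)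
      have na := (fv v).nonneg (U ^ 2 * a)
      have nb := (fv v).nonneg (U ^ 2 * b)
      have ng := (fv v).nonneg (U ^ 2 * a - U ^ 2 * b)
      rcases hu with hu | hu
      · rw [← fv_eq_one_iff, k1] at hu
        rw [map_mul, map_mul, map_mul, map_pow, map_pow, map_pow, fv_sixteen v h2, one_mul] at hu
        have t1 : fv v (U ^ 2 * a) ^ 2 < 1 := pow_lt_one₀ na ma two_ne_zero
        have t2 : fv v (U ^ 2 * b) ^ 2 ≤ 1 := pow_le_one₀ nb mb
        have t3 : fv v (U ^ 2 * a - U ^ 2 * b) ^ 2 ≤ 1 := pow_le_one₀ ng mg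
        have t4 : fv v (U ^ 2 * a) ^ 2 * fv v (U ^ 2 * b) ^ 2 *
            fv v (U ^ 2 * a - U ^ 2 * b) ^ 2 < 1 := by
          calc _ ≤ fv v (U ^ 2 * a) ^ 2 * 1 * 1 := by gcongr
            _ < 1 := by linarith
        exact absurd hu t4.ne
      · rw [← fv_eq_one_iff, k2] at hu
        rw [map_mul, fv_sixteen v h2, one_mul] at hu
        have t1 := (form_val (fv v) (fv_na v) (U ^ 2 * a) (U ^ 2 * b)).1
        rw [hu] at t1
        have t2 : (max (fv v (U ^ 2 * a)) (fv v (U ^ 2 * b))) ^ 2 < 1 :=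
          pow_lt_one₀ (le_max_of_le_left na) hc two_ne_zero
        linarith
    rw [max_scale] at hm
    refine ⟨U⁻¹, inv_ne_zero hU0, ?_⟩
    have hUp : fv v U ≠ 0 := ((fv v).pos hU0).ne'
    rw [map_inv₀, inv_pow]
    exact eq_inv_of_mul_eq_one_right hm
  · rintro ⟨u, hu, hm⟩
    have hui : u⁻¹ ≠ 0 := inv_ne_zero hu
    obtain ⟨C, hC⟩ := model hp hui
    have hm' : max (fv v (u⁻¹ ^ 2 * a)) (fv v (u⁻¹ ^ 2 * b)) = 1 := by
      rw [max_scale, hm, map_inv₀, inv_pow]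
      exact inv_mul_cancel₀ (pow_ne_zero _ ((fv v).pos hu).ne')
    have ja : fv v (u⁻¹ ^ 2 * a) ≤ 1 := by rw [← hm']; exact le_max_left _ _
    have jb : fv v (u⁻¹ ^ 2 * b) ≤ 1 := by rw [← hm']; exact le_max_right _ _
    obtain ⟨i1, i2, i3, i4, i6⟩ := int_EE v ja jb
    have hg : u⁻¹ ^ 2 ≠ 0 := pow_ne_zero _ hui
    have := unit_case v h2 (pm_EE (mul_ne_zero hg hp.1) (mul_ne_zero hg hp.2.1)
      (fun h => hp.2.2.1 (mul_left_cancel₀ hg h))) hm'
    refine ⟨C, ?_⟩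
    rw [hC]
    exact ⟨i1, i2, i3, i4, i6, this⟩

/-- good reduction -/
theorem good_of (v : Pr K) {E : WeierstrassCurve K} {a b : K} (h2 : fv v 2 = 1)
    (hp : Pm E a b) (hs : SemiAt v E) (h1 : fv v b = fv v a) (h3 : fv v (a - b) = fv v a) :
    GoodAt v E := by
  obtain ⟨u, hu, hm⟩ := (semi_iff v h2 hp).1 hs
  have hui : u⁻¹ ≠ 0 := inv_ne_zero hu
  obtain ⟨C, hC⟩ := model hp hui
  have hup : fv v u ^ 2 ≠ 0 := pow_ne_zero _ ((fv v).pos hu).ne'
  rw [h1, max_self] at hm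
  have ja : fv v (u⁻¹ ^ 2 * a) = 1 := by
    rw [map_mul, map_pow, map_inv₀, hm, inv_pow, inv_mul_cancel₀ hup]
  have jb : fv v (u⁻¹ ^ 2 * b) = 1 := by
    rw [map_mul, map_pow, map_inv₀, h1, hm, inv_pow, inv_mul_cancel₀ hup]
  have jg : fv v (u⁻¹ ^ 2 * a - u⁻¹ ^ 2 * b) = 1 := by
    rw [← mul_sub, map_mul, map_pow, map_inv₀, h3, hm, inv_pow, inv_mul_cancel₀ hup]
  obtain ⟨i1, i2, i3, i4, i6⟩ := int_EE v ja.le jb.le
  refine ⟨C, ?_⟩
  rw [hC]
  refine ⟨i1, i2, i3, i4, i6, ?_⟩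
  have hg : u⁻¹ ^ 2 ≠ 0 := pow_ne_zero _ hui
  obtain ⟨k1, -⟩ := pm_disc (pm_EE (mul_ne_zero hg hp.1) (mul_ne_zero hg hp.2.1)
      (fun h => hp.2.2.1 (mul_left_cancel₀ hg h)))
  rw [← fv_eq_one_iff, k1]
  simp only [map_mul (fv v) 16, map_mul (fv v) (_ ^ 2 * _), map_mul (fv v) ((u⁻¹ ^ 2 * a) ^ 2),
    map_pow (fv v) (u⁻¹ ^ 2 * a), map_pow (fv v) (u⁻¹ ^ 2 * b),
    map_pow (fv v) (u⁻¹ ^ 2 * a - u⁻¹ ^ 2 * b), ja, jb, jg, fv_sixteen v h2]
  norm_num

theorem good_semi (v : Pr K) {E : WeierstrassCurve K} (h : GoodAt v E) : SemiAt v E := by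
  obtain ⟨C, i1, i2, i3, i4, i6, hu⟩ := h
  exact ⟨C, i1, i2, i3, i4, i6, Or.inl hu⟩

theorem jinv_change {E : WeierstrassCurve K} (hE : E.Δ ≠ 0)
    (C : WeierstrassCurve.VariableChange K) :
    (C • E).Δ ≠ 0 ∧ E.c₄ ^ 3 / E.Δ = (C • E).c₄ ^ 3 / (C • E).Δ := by
  have : ((C.u⁻¹ : Kˣ) : K) ≠ 0 := Units.ne_zero _
  constructor
  · rw [WeierstrassCurve.variableChange_Δ]
    exact mul_ne_zero (pow_ne_zero _ this) hE
  · rw [WeierstrassCurve.variableChange_c₄, WeierstrassCurve.variableChange_Δ]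
    rw [div_eq_div_iff hE (mul_ne_zero (pow_ne_zero _ this) hE)]
    ring

theorem disc_le_C (v : Pr K) {E : WeierstrassCurve K} (hE : E.Δ ≠ 0)
    (C : WeierstrassCurve.VariableChange K) (h : IntAt v (C • E)) :
    (discExp v E : ℝ) * Real.log (Ideal.absNorm v.asIdeal : ℝ) ≤ -Real.log (fv v (C • E).Δ) := by
  obtain ⟨m, hm⟩ := val_exp v (jinv_change hE C).1 (int_disc v _ h).1
  have h1 : discExp v E ≤ m := Nat.sInf_le ⟨C, h, hm⟩
  rw [fv_exp v hm, neg_neg]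
  refine mul_le_mul_of_nonneg_right ?_ (logN_nonneg v)
  exact_mod_cast h1

/-- the semistable primes -/
theorem disc_semi (v : Pr K) {E : WeierstrassCurve K} (hE : E.Δ ≠ 0) (hs : SemiAt v E) :
    (discExp v E : ℝ) * Real.log (Ideal.absNorm v.asIdeal : ℝ) ≤ lp (fv v) (E.c₄ ^ 3 / E.Δ) := by
  obtain ⟨C, i1, i2, i3, i4, i6, hu⟩ := hs
  obtain ⟨hD, hj⟩ := jinv_change hE C
  refine (disc_le_C v hE C ⟨i1, i2, i3, i4, i6⟩).trans ?_
  rw [hj]
  rcases hu with hu | hu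
  · rw [← fv_eq_one_iff] at hu
    rw [hu, Real.log_one, neg_zero]
    exact lp_nonneg _ _
  · rw [← fv_eq_one_iff] at hu
    unfold Pool.Agent.Y729.FW.lp
    rw [map_div₀, map_pow, hu, one_pow, ← Real.log_inv, one_div]
    exact Real.log_le_log (inv_pos.2 ((fv v).pos hD)) (le_max_left _ _)

theorem uniformizer (v : Pr K) : ∃ π : K, π ≠ 0 ∧ fv v π = (Ideal.absNorm v.asIdeal : ℝ)⁻¹ := by
  obtain ⟨π, hπ⟩ := v.valuation_exists_uniformizer K
  have hπ0 : π ≠ 0 := by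
    rintro rfl
    rw [map_zero] at hπ
    exact exp_ne_zero hπ.symm
  refine ⟨π, hπ0, ?_⟩
  have h1 : v.valuation K π = exp (-((1 : ℕ) : ℤ)) := by
    rw [hπ]
    rfl
  have h2 := fv_exp v h1
  have h3 : (0 : ℝ) < (Ideal.absNorm v.asIdeal : ℝ) := by linarith [one_lt_N v]
  rw [Nat.cast_one, one_mul, ← Real.log_inv] at h2
  exact Real.log_injOn_pos (Set.mem_Ioi.2 ((fv v).pos hπ0)) (Set.mem_Ioi.2 (inv_pos.2 h3)) h2

/-- all primes -/
theorem disc_gen (v : Pr K) {E : WeierstrassCurve K} {a b : K} (hE : E.Δ ≠ 0) (hp : Pm E a b) :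
    (discExp v E : ℝ) * Real.log (Ideal.absNorm v.asIdeal : ℝ) ≤ lp (fv v) (E.c₄ ^ 3 / E.Δ) +
      6 * Real.log (Ideal.absNorm v.asIdeal : ℝ) - 3 * Real.log (fv v 16) := by
  obtain ⟨N, hN⟩ : ∃ N : ℝ, N = (Ideal.absNorm v.asIdeal : ℝ) := ⟨_, rfl⟩
  have hN1 : 1 < N := by rw [hN]; exact one_lt_N v
  have hN0 : 0 < N := by linarith
  obtain ⟨k, hk⟩ : ∃ k : ℤ, max (fv v a) (fv v b) = N ^ k := by
    rcases max_choice (fv v a) (fv v b) with h | h
    · obtain ⟨k, hk⟩ := fv_zpow v hp.1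
      exact ⟨k, by rw [h, hN]; exact hk⟩
    · obtain ⟨k, hk⟩ := fv_zpow v hp.2.1
      exact ⟨k, by rw [h, hN]; exact hk⟩
  obtain ⟨π, hπ0, hπ⟩ := uniformizer v
  rw [← hN] at hπ
  obtain ⟨m, hm⟩ : ∃ m : ℤ, m = (k + 1) / 2 := ⟨_, rfl⟩
  have hg0 : π ^ m ≠ 0 := zpow_ne_zero _ hπ0
  obtain ⟨C, hC⟩ := model hp hg0
  have hmax : max (fv v ((π ^ m) ^ 2 * a)) (fv v ((π ^ m) ^ 2 * b)) = N ^ (k - 2 * m) := by
    rw [max_scale, hk, map_zpow₀, hπ, inv_zpow, ← zpow_neg, ← zpow_natCast, ← zpow_mul,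
      ← zpow_add₀ hN0.ne']
    congr 1
    push_cast
    ring
  have hcase : k - 2 * m = 0 ∨ k - 2 * m = -1 := by omega
  have hle : N ^ (k - 2 * m) ≤ 1 := by
    rcases hcase with h | h
    · rw [h, zpow_zero]
    · rw [h, zpow_neg_one]
      exact inv_le_one_of_one_le₀ hN1.le
  have hge : -Real.log N ≤ Real.log (N ^ (k - 2 * m)) := by
    have hlN : 0 < Real.log N := Real.log_pos hN1
    rcases hcase with h | h
    · rw [h, zpow_zero, Real.log_one]
      linarith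
    · rw [h, zpow_neg_one, Real.log_inv]
  have hg2 : (π ^ m) ^ 2 ≠ 0 := pow_ne_zero _ hg0
  have ja : fv v ((π ^ m) ^ 2 * a) ≤ 1 := (le_max_left _ _).trans (hmax.le.trans hle)
  have jb : fv v ((π ^ m) ^ 2 * b) ≤ 1 := (le_max_right _ _).trans (hmax.le.trans hle)
  have hp' := pm_EE (mul_ne_zero hg2 hp.1) (mul_ne_zero hg2 hp.2.1)
      (fun h => hp.2.2.1 (mul_left_cancel₀ hg2 h))
  obtain ⟨k1, k2⟩ := pm_disc hp'
  have h1 := (disc_two (fv v) (fv_na v) hp'.1 hp'.2.1 hp'.2.2.1 (by norm_num)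
    (fv_sixteen_le v) k1 k2).1
  have h2 := disc_le_C v hE C (by rw [hC]; exact int_EE v ja jb)
  obtain ⟨hD, hj⟩ := jinv_change hE C
  rw [hC] at h2 hj
  rw [← hj, hmax] at h1
  rw [← hN] at h2 ⊢
  linarith

/-- the additive primes -/
theorem disc_add (v : Pr K) {E : WeierstrassCurve K} {a b : K} (h2 : fv v 2 = 1)
    (hE : E.Δ ≠ 0) (hp : Pm E a b) (hs : ¬ SemiAt v E) :
    lp (fv v) (E.c₄ ^ 3 / E.Δ) + 6 * Real.log (Ideal.absNorm v.asIdeal : ℝ) ≤
      (discExp v E : ℝ) * Real.log (Ideal.absNorm v.asIdeal : ℝ) := by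
  obtain ⟨C, hint, hC⟩ := disc_spec v E hE
  have hp' := pm_change hp C
  obtain ⟨a', ha'⟩ : ∃ a', a' = ((C.u⁻¹ : Kˣ) : K) ^ 2 * a := ⟨_, rfl⟩
  obtain ⟨b', hb'⟩ : ∃ b', b' = ((C.u⁻¹ : Kˣ) : K) ^ 2 * b := ⟨_, rfl⟩
  rw [← ha', ← hb'] at hp'
  obtain ⟨j1, j2⟩ := pm_int v h2 hint hp'
  have hne : max (fv v a') (fv v b') ≠ 1 := by
    intro h
    obtain ⟨i1, i2, i3, i4, i6⟩ := hint
    exact hs ⟨C, i1, i2, i3, i4, i6, unit_case v h2 hp' h⟩
  have hlt : max (fv v a') (fv v b') < 1 := lt_of_le_of_ne (max_le j1 j2) hne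
  obtain ⟨N, hN⟩ : ∃ N : ℝ, N = (Ideal.absNorm v.asIdeal : ℝ) := ⟨_, rfl⟩
  have hN1 : 1 < N := by rw [hN]; exact one_lt_N v
  have hlN : 0 < Real.log N := Real.log_pos hN1
  obtain ⟨k, hk⟩ : ∃ k : ℤ, max (fv v a') (fv v b') = N ^ k := by
    rcases max_choice (fv v a') (fv v b') with h | h
    · obtain ⟨k, hk⟩ := fv_zpow v hp'.1
      exact ⟨k, by rw [h, hN]; exact hk⟩
    · obtain ⟨k, hk⟩ := fv_zpow v hp'.2.1
      exact ⟨k, by rw [h, hN]; exact hk⟩
  have hk0 : k ≤ -1 := by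
    by_contra hc
    have h3 : 0 ≤ k := by omega
    have h4 : 1 ≤ N ^ k := one_le_zpow₀ hN1.le h3
    rw [← hk] at h4
    linarith
  have hlog : Real.log (max (fv v a') (fv v b')) ≤ -Real.log N := by
    rw [hk, Real.log_zpow]
    have : (k : ℝ) ≤ -1 := by exact_mod_cast hk0
    nlinarith
  obtain ⟨k1, k2⟩ := pm_disc hp'
  have h1 := (disc_two (fv v) (fv_na v) hp'.1 hp'.2.1 hp'.2.2.1 (by norm_num)
    (fv_sixteen_le v) k1 k2).2 (fv_sixteen v h2)
  obtain ⟨hD, hj⟩ := jinv_change hE C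
  rw [← hj, fv_exp v hC, neg_neg] at h1
  rw [← hN] at h1 ⊢
  linarith

/-- the additive primes not above two -/
theorem add_finite {E : WeierstrassCurve K} (hE : E.Δ ≠ 0) :
    {v : Pr K | ¬ SemiAt v E ∧ v.valuation K 2 = 1}.Finite :=
  (Pool.Agent.TH876.TT.bad K E hE).subset fun v hv hg => hv.1 (good_semi v hg)

theorem bad2_finite {E : WeierstrassCurve K} (hE : E.Δ ≠ 0) :
    {v : Pr K | ¬ GoodAt v E ∧ v.valuation K 2 = 1}.Finite :=
  (Pool.Agent.TH876.TT.bad K E hE).subset fun v hv => hv.1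

open Classical in
/-- the additive primes not above two -/
noncomputable def AA (E : WeierstrassCurve K) : Finset (Pr K) :=
  if h : {v : Pr K | ¬ SemiAt v E ∧ v.valuation K 2 = 1}.Finite then h.toFinset else ∅

theorem mem_AA {E : WeierstrassCurve K} (hE : E.Δ ≠ 0) (v : Pr K) :
    v ∈ AA E ↔ ¬ SemiAt v E ∧ fv v 2 = 1 := by
  unfold AA
  rw [dif_pos (add_finite hE), Set.Finite.mem_toFinset, fv_eq_one_iff]
  rfl

/-- the part outside two of the norm of the conductor -/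
noncomputable def cond (E : WeierstrassCurve K) : ℝ :=
  (∏ᶠ v ∈ {v : Pr K | ¬ GoodAt v E ∧ v.valuation K 2 = 1}, (Ideal.absNorm v.asIdeal : ℝ)) *
    ∏ᶠ v ∈ {v : Pr K | ¬ SemiAt v E ∧ v.valuation K 2 = 1}, (Ideal.absNorm v.asIdeal : ℝ)

/-- the parameter -/
theorem sp_iff {a b : K} (ha : a ≠ 0) (hb : b ≠ 0) (hab : a ≠ b) :
    Pt (-(b / a)) ∧ ∀ v : Pr K, v ∉ sp (-(b / a)) ↔ fv v b = fv v a ∧ fv v (a - b) = fv v a := by
  have hpt : Pt (-(b / a)) := by
    refine ⟨neg_ne_zero.2 (div_ne_zero hb ha), fun h => hab ?_⟩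
    field_simp at h
    linear_combination h
  refine ⟨hpt, fun v => ?_⟩
  have hfa : fv v a ≠ 0 := ((fv v).pos ha).ne'
  have e : -(b / a) + 1 = (a - b) / a := by
    field_simp
    ring
  rw [mem_sp hpt, not_not, (fv v).map_neg, e, map_div₀, map_div₀, div_eq_one_iff_eq hfa,
    div_eq_one_iff_eq hfa]

open Classical in
theorem cond_eq {E : WeierstrassCurve K} {a b : K} (hE : E.Δ ≠ 0) (hp : Pm E a b) :
    cond E = nn ((sp (-(b / a)) \ T2 K) ∪ AA E) * nn (AA E) := by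
  unfold cond
  rw [finprod_mem_eq_finite_toFinset_prod _ (bad2_finite hE),
    finprod_mem_eq_finite_toFinset_prod _ (add_finite hE)]
  obtain ⟨hpt, hsp⟩ := sp_iff hp.1 hp.2.1 hp.2.2.1
  congr 1
  · have : (bad2_finite hE).toFinset = (sp (-(b / a)) \ T2 K) ∪ AA E := by
      ext v
      rw [Set.Finite.mem_toFinset, Finset.mem_union, Finset.mem_sdiff, mem_T2, not_not, mem_AA hE,
        Set.mem_ofPred_eq, ← fv_eq_one_iff]
      constructor
      · rintro ⟨h1, h2⟩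
        by_contra hc
        rw [not_or, not_and_or, not_and_or, not_not] at hc
        obtain ⟨h3, h4⟩ := hc
        have h5 : v ∉ sp (-(b / a)) := h3.resolve_right (fun h => h h2)
        have h6 : SemiAt v E := h4.resolve_right (fun h => h h2)
        obtain ⟨k1, k2⟩ := (hsp v).1 h5
        exact h1 (good_of v h2 hp h6 k1 k2)
      · rintro (⟨h1, h2⟩ | ⟨h1, h2⟩)
        · refine ⟨fun hg => absurd h1 ?_, h2⟩
          obtain ⟨C, i1, i2, i3, i4, i6, hu⟩ := hg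
          have hp' := pm_change hp C
          obtain ⟨U, hU⟩ : ∃ U : K, U = ((C.u⁻¹ : Kˣ) : K) := ⟨_, rfl⟩
          have hU0 : U ^ 2 ≠ 0 := by rw [hU]; exact pow_ne_zero _ (Units.ne_zero _)
          rw [← hU] at hp'
          obtain ⟨j1, j2⟩ := pm_int v h2 ⟨i1, i2, i3, i4, i6⟩ hp'
          have j3 : fv v (U ^ 2 * a - U ^ 2 * b) ≤ 1 :=
            (na_sub (fv v) (fv_na v) _ _).trans (max_le j1 j2)
          obtain ⟨k1, -⟩ := pm_disc hp'
          rw [← fv_eq_one_iff, k1] at hu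
          rw [map_mul, map_mul, map_mul, map_pow, map_pow, map_pow, fv_sixteen v h2, one_mul] at hu
          have na := (fv v).nonneg (U ^ 2 * a)
          have nb := (fv v).nonneg (U ^ 2 * b)
          have ng := (fv v).nonneg (U ^ 2 * a - U ^ 2 * b)
          have u1 : fv v (U ^ 2 * a) = 1 := by
            refine le_antisymm j1 ?_
            by_contra hc
            have t1 : fv v (U ^ 2 * a) ^ 2 < 1 := pow_lt_one₀ na (not_le.1 hc) two_ne_zero
            have t2 : fv v (U ^ 2 * b) ^ 2 ≤ 1 := pow_le_one₀ nb j2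
            have t3 : fv v (U ^ 2 * a - U ^ 2 * b) ^ 2 ≤ 1 := pow_le_one₀ ng j3
            have t4 : fv v (U ^ 2 * a) ^ 2 * fv v (U ^ 2 * b) ^ 2 *
                fv v (U ^ 2 * a - U ^ 2 * b) ^ 2 < 1 := by
              calc _ ≤ fv v (U ^ 2 * a) ^ 2 * 1 * 1 := by gcongr
                _ < 1 := by linarith
            exact absurd hu t4.ne
          rw [u1, one_pow, one_mul] at hu
          have u2 : fv v (U ^ 2 * b) = 1 := by
            refine le_antisymm j2 ?_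
            by_contra hc
            have t2 : fv v (U ^ 2 * b) ^ 2 < 1 := pow_lt_one₀ nb (not_le.1 hc) two_ne_zero
            have t3 : fv v (U ^ 2 * a - U ^ 2 * b) ^ 2 ≤ 1 := pow_le_one₀ ng j3
            have t4 : fv v (U ^ 2 * b) ^ 2 *
                fv v (U ^ 2 * a - U ^ 2 * b) ^ 2 < 1 := by
              calc _ ≤ fv v (U ^ 2 * b) ^ 2 * 1 := by gcongr
                _ < 1 := by linarith
            exact absurd hu t4.ne
          rw [u2, one_pow, one_mul] at hu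
          have u3 : fv v (U ^ 2 * a - U ^ 2 * b) = 1 :=
            (pow_eq_one_iff_of_nonneg ng two_ne_zero).1 hu
          have hfU : fv v (U ^ 2) ≠ 0 := ((fv v).pos hU0).ne'
          rw [← mul_sub] at u3
          rw [map_mul] at u1 u2 u3
          exact (hsp v).2 ⟨mul_left_cancel₀ hfU (u2.trans u1.symm),
            mul_left_cancel₀ hfU (u3.trans u1.symm)⟩
        · exact ⟨fun hg => h1 (good_semi v hg), h2⟩
    rw [this]
    rfl
  · unfold AA
    rw [dif_pos (add_finite hE)]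
    rfl

end Pool.Agent.Y729.AH
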