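import Mathlib
import Pool.Agent.Y729.AE.Frey
import Pool.Agent.Y729.AH.TwCond

/-!
# Elliptic curves with full two-torsion: the unstable Faltings height
-/

set_option autoImplicit false

namespace Pool.Agent.Y729.AH

open NumberField IsDedekindDomain Finset WithZero
open Pool.Agent.H691R3 (fv fv_na fv_zpow)
open Pool.Agent.TH876.Loc
open Pool.Agent.TH876.FH (faltings IsPeriod FullTwo GoodAt badNorm jInv arch)
open Pool.Agent.Y729.FW (lp lp_nonneg logN_nonneg lp_support)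
open Pool.Agent.Y729.AE (IntAt discExp disc_support lp_le_disc hRes hRes_formula disc_ge)

variable {K : Type} [Field K] [NumberField K]

theorem log_nn (s : Finset (Pr K)) :
    Real.log (nn s) = ∑ v ∈ s, Real.log (Ideal.absNorm v.asIdeal : ℝ) := by
  unfold nn
  rw [Real.log_prod]
  · rfl
  · intro v _
    exact (Nv_pos v).ne'

/-- the constant at two -/
noncomputable def CT (K : Type) [Field K] [NumberField K] : ℝ :=
  ∑ v ∈ T2 K, (6 * Real.log (Ideal.absNorm v.asIdeal : ℝ) - 3 * Real.log (fv v (16 : K)))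

theorem CT_term (v : Pr K) :
    0 ≤ 6 * Real.log (Ideal.absNorm v.asIdeal : ℝ) - 3 * Real.log (fv v (16 : K)) := by
  have h1 := logN_nonneg v
  have h2 : Real.log (fv v (16 : K)) ≤ 0 := Real.log_nonpos ((fv v).nonneg _) (fv_sixteen_le v)
  linarith

theorem disc_sum {E : WeierstrassCurve K} {a b : K} (hE : E.Δ ≠ 0) (hp : Pm E a b) :
    ∑ᶠ v : HeightOneSpectrum (𝓞 K), lp (fv v) (E.c₄ ^ 3 / E.Δ) + 6 * Real.log (nn (AA E)) ≤
      ∑ᶠ v : HeightOneSpectrum (𝓞 K),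
        (discExp v E : ℝ) * Real.log (Ideal.absNorm v.asIdeal : ℝ) ∧
    ∑ᶠ v : HeightOneSpectrum (𝓞 K),
        (discExp v E : ℝ) * Real.log (Ideal.absNorm v.asIdeal : ℝ) ≤
      ∑ᶠ v : HeightOneSpectrum (𝓞 K), lp (fv v) (E.c₄ ^ 3 / E.Δ) +
        6 * Real.log (nn (AA E)) + CT K := by
  classical
  obtain ⟨U, hU⟩ : ∃ U : Finset (Pr K), U = (disc_support E hE).toFinset ∪
    (lp_support (E.c₄ ^ 3 / E.Δ)).toFinset ∪ AA E ∪ T2 K := ⟨_, rfl⟩
  have s1 : ∑ᶠ v : HeightOneSpectrum (𝓞 K),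
      (discExp v E : ℝ) * Real.log (Ideal.absNorm v.asIdeal : ℝ) =
      ∑ v ∈ U, (discExp v E : ℝ) * Real.log (Ideal.absNorm v.asIdeal : ℝ) := by
    refine finsum_eq_sum_of_support_subset _ fun v hv => ?_
    rw [Finset.mem_coe, hU]
    simp only [Finset.mem_union, Set.Finite.mem_toFinset]
    exact Or.inl (Or.inl (Or.inl hv))
  have s2 : ∑ᶠ v : HeightOneSpectrum (𝓞 K), lp (fv v) (E.c₄ ^ 3 / E.Δ) =
      ∑ v ∈ U, lp (fv v) (E.c₄ ^ 3 / E.Δ) := by
    refine finsum_eq_sum_of_support_subset _ fun v hv => ?_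
    rw [Finset.mem_coe, hU]
    simp only [Finset.mem_union, Set.Finite.mem_toFinset]
    exact Or.inl (Or.inl (Or.inr hv))
  have hAU : AA E ⊆ U := by
    intro v hv
    rw [hU]
    simp only [Finset.mem_union]
    exact Or.inl (Or.inr hv)
  have hTU : T2 K ⊆ U := by
    intro v hv
    rw [hU]
    simp only [Finset.mem_union]
    exact Or.inr hv
  have s3 : 6 * Real.log (nn (AA E)) =
      ∑ v ∈ U, if v ∈ AA E then 6 * Real.log (Ideal.absNorm v.asIdeal : ℝ) else 0 := by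
    rw [Finset.sum_ite_mem, Finset.inter_eq_right.2 hAU, log_nn, Finset.mul_sum]
  have s4 : CT K = ∑ v ∈ U, if v ∈ T2 K then
      (6 * Real.log (Ideal.absNorm v.asIdeal : ℝ) - 3 * Real.log (fv v (16 : K))) else 0 := by
    rw [Finset.sum_ite_mem, Finset.inter_eq_right.2 hTU]
    rfl
  rw [s1, s2, s3, s4, ← Finset.sum_add_distrib, ← Finset.sum_add_distrib]
  constructor
  · refine Finset.sum_le_sum fun v _ => ?_
    split_ifs with h
    · rw [mem_AA hE] at h
      exact disc_add v h.2 hE hp h.1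
    · rw [add_zero]
      exact lp_le_disc v E hE
  · refine Finset.sum_le_sum fun v _ => ?_
    have h0 := logN_nonneg v
    have hct := CT_term v
    by_cases hT : v ∈ T2 K
    · rw [if_pos hT]
      have h1 := disc_gen v hE hp
      have h2 : 0 ≤ (if v ∈ AA E then 6 * Real.log (Ideal.absNorm v.asIdeal : ℝ) else 0) := by
        split_ifs
        · linarith
        · exact le_rfl
      linarith
    · rw [if_neg hT, add_zero]
      rw [mem_T2, not_not] at hT
      by_cases hA : v ∈ AA E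
      · rw [if_pos hA]
        have h1 := disc_gen v hE hp
        rw [fv_sixteen v hT, Real.log_one] at h1
        linarith
      · rw [if_neg hA, add_zero]
        rw [mem_AA hE, not_and'] at hA
        exact disc_semi v hE (not_not.1 (hA hT))

/-- the unstable and the stable height -/
theorem hres_bounds {L : Type} [Field L] [NumberField L] [Algebra K L] {E : WeierstrassCurve L}
    {a b : L} (hE : E.Δ ≠ 0) (hp : Pm E a b) (τ : InfinitePlace L → UpperHalfPlane) :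
    12 * (Module.finrank ℚ L : ℝ) * faltings (E.c₄ ^ 3 / E.Δ) τ + 6 * Real.log (nn (AA E)) ≤
      12 * (Module.finrank ℚ K : ℝ) * hRes K E τ ∧
    12 * (Module.finrank ℚ K : ℝ) * hRes K E τ ≤
      12 * (Module.finrank ℚ L : ℝ) * faltings (E.c₄ ^ 3 / E.Δ) τ + 6 * Real.log (nn (AA E)) +
        (CT L + 6 * (Real.log |(discr L : ℝ)| - Module.finrank K L * Real.log |(discr K : ℝ)|)) := by
  obtain ⟨h1, h2⟩ := disc_sum hE hp
  have h3 : 12 * (Module.finrank ℚ L : ℝ) * faltings (E.c₄ ^ 3 / E.Δ) τ =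
      ∑ᶠ v : HeightOneSpectrum (𝓞 L), lp (fv v) (E.c₄ ^ 3 / E.Δ) +
        ∑ w : InfinitePlace L, (w.mult : ℝ) * arch (τ w) :=
    Pool.Agent.TH876.FH.Hj_faltings _ τ
  have h4 := disc_ge K L
  rw [h3, hRes_formula]
  constructor <;> linarith

/-- the height of the parameter from above -/
theorem hres_upper (K L : Type) [Field K] [NumberField K] [Field L] [NumberField L] [Algebra K L] :
    ∃ C : ℝ, 0 ≤ C ∧ ∀ (E : WeierstrassCurve L) (a b : L) (τ : InfinitePlace L → UpperHalfPlane),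
      E.Δ ≠ 0 → Pm E a b → IsPeriod (E.c₄ ^ 3 / E.Δ) τ →
      2 * ((Module.finrank ℚ K : ℝ) * hRes K E τ) ≤
        hgt (-(b / a)) + Real.log (nn (AA E)) + C := by
  obtain ⟨c1, hc1, hf1⟩ := Pool.Agent.Y729.FW.fal_two
  obtain ⟨c2, hc2, hf2⟩ := Pool.Agent.Y729.FW.six_height
  obtain ⟨C0, hC0⟩ : ∃ C0 : ℝ, C0 = (c1 + c2) * Module.finrank ℚ L +
    (CT L + 6 * (Real.log |(discr L : ℝ)| - Module.finrank K L * Real.log |(discr K : ℝ)|)) :=
    ⟨_, rfl⟩
  refine ⟨|C0| / 6, by positivity, fun E a b τ hE hp hτ => ?_⟩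
  obtain ⟨-, h2⟩ := hres_bounds (K := K) hE hp τ
  have hl0 : b / a ≠ 0 := div_ne_zero hp.2.1 hp.1
  have hl1 : b / a ≠ 1 := by
    rw [Ne, div_eq_one_iff_eq hp.1]
    exact fun h => hp.2.2.1 h.symm
  have hj : E.c₄ ^ 3 / E.Δ * ((b / a) ^ 2 * (1 - b / a) ^ 2) = 256 * ((b / a) ^ 2 - b / a + 1) ^ 3 := by
    obtain ⟨k1, k2⟩ := pm_disc hp
    have ha := hp.1
    have hb := hp.2.1
    have hab : a - b ≠ 0 := sub_ne_zero.2 hp.2.2.1
    rw [k1, k2]
    field_simp
    ring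
  have k1 := hf1 L _ τ hτ
  have k2 := (hf2 L _ _ hl0 hl1 hj).2
  have k3 := hgt_ge hl0 hl1
  have k4 := le_abs_self C0
  rw [hC0] at k4
  rw [hC0]
  linarith

/-- the height of the parameter from below -/
theorem hres_lower (K L : Type) [Field K] [NumberField K] [Field L] [NumberField L] [Algebra K L]
    (δ : ℝ) (hδ : 0 < δ) :
    ∃ C : ℝ, 0 ≤ C ∧ ∀ (E : WeierstrassCurve L) (a b : L) (τ : InfinitePlace L → UpperHalfPlane),
      E.Δ ≠ 0 → Pm E a b → IsPeriod (E.c₄ ^ 3 / E.Δ) τ →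
      hgt (-(b / a)) + (1 + δ) * Real.log (nn (AA E)) ≤
        2 * (1 + δ) * ((Module.finrank ℚ K : ℝ) * hRes K E τ) + C := by
  obtain ⟨c1, hc1, hf1⟩ := Pool.Agent.Y729.FW.fal_one hδ
  obtain ⟨c2, hc2, hf2⟩ := Pool.Agent.Y729.FW.six_height
  refine ⟨(c1 + c2) * Module.finrank ℚ L / 6 + Module.finrank ℚ L * Real.log 2, by positivity,
    fun E a b τ hE hp hτ => ?_⟩
  obtain ⟨h2, -⟩ := hres_bounds (K := K) hE hp τ
  have hl0 : b / a ≠ 0 := div_ne_zero hp.2.1 hp.1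
  have hl1 : b / a ≠ 1 := by
    rw [Ne, div_eq_one_iff_eq hp.1]
    exact fun h => hp.2.2.1 h.symm
  have hj : E.c₄ ^ 3 / E.Δ * ((b / a) ^ 2 * (1 - b / a) ^ 2) = 256 * ((b / a) ^ 2 - b / a + 1) ^ 3 := by
    obtain ⟨k1, k2⟩ := pm_disc hp
    have ha := hp.1
    have hb := hp.2.1
    have hab : a - b ≠ 0 := sub_ne_zero.2 hp.2.2.1
    rw [k1, k2]
    field_simp
    ring
  have k1 := hf1 L _ τ hτ
  have k2 := (hf2 L _ _ hl0 hl1 hj).1
  have k3 := hgt_le hl0 hl1
  have k5 := mul_le_mul_of_nonneg_left h2 (by linarith : 0 ≤ 1 + δ)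
  linarith

end Pool.Agent.Y729.AH
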