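import Mathlib
import Pool.Agent.Y729.AH.TwCount
import Pool.Agent.Y729.AH.TwHt

/-!
# Isomorphism classes of elliptic curves with full two-torsion: upper bounds
-/

set_option autoImplicit false

namespace Pool.Agent.Y729.AH

open NumberField IsDedekindDomain Finset WithZero
open Pool.Agent.H691R3 (fv fv_na fv_zpow Nv)
open Pool.Agent.TH876.Loc
open Pool.Agent.TH876.FH (faltings IsPeriod FullTwo GoodAt badNorm jInv arch)

/-- the isomorphism classes -/
abbrev Iso (K : Type) [Field K] : Type :=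
  Quotient (MulAction.orbitRel (WeierstrassCurve.VariableChange K) (WeierstrassCurve K))

/-- the class of a curve -/
def cl {K : Type} [Field K] (E : WeierstrassCurve K) : Iso K := Quotient.mk'' E

theorem cl_eq {K : Type} [Field K] {E E' : WeierstrassCurve K} :
    cl E = cl E' ↔ ∃ C : WeierstrassCurve.VariableChange K, C • E' = E := by
  unfold cl
  rw [Quotient.eq'']
  exact MulAction.orbitRel_apply.trans MulAction.mem_orbit_iff

variable {K : Type} [Field K] [NumberField K]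

/-- curves with the same parameter and the same class of `a` are isomorphic -/
theorem cl_of {E E' : WeierstrassCurve K} {a b a' b' g : K} (h : Pm E a b) (h' : Pm E' a' b')
    (hz : -(b / a) = -(b' / a')) (hg : g ≠ 0) (ha : a = a' * g ^ 2) : cl E = cl E' := by
  have hb : b = g ^ 2 * b' := by
    have h1 : b / a = b' / a' := neg_injective hz
    have ha0 := h.1
    have ha0' := h'.1
    rw [div_eq_div_iff ha0 ha0', ha] at h1
    have : a' * b = a' * (g ^ 2 * b') := by linear_combination h1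
    exact mul_left_cancel₀ ha0' this
  have e1 : cl E = cl (EE a b) := by
    obtain ⟨C, hC⟩ := pm_iso h
    exact (cl_eq.2 ⟨C, hC⟩).symm
  have e2 : cl E' = cl (EE a' b') := by
    obtain ⟨C, hC⟩ := pm_iso h'
    exact (cl_eq.2 ⟨C, hC⟩).symm
  have e3 : cl (EE a b) = cl (EE a' b') := by
    obtain ⟨C, hC⟩ := EE_scale (a := a') (b := b') hg
    rw [ha, hb, mul_comm a']
    exact (cl_eq.2 ⟨C, hC⟩).symm
  rw [e1, e2, e3]

open Classical in
/-- the upper bound for the number of classes -/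
theorem upper (K : Type) [Field K] [NumberField K] (ε : ℝ) (hε : 0 < ε) :
    ∃ c : ℝ, 0 < c ∧ ∀ X B β : ℝ, 1 ≤ X → 0 ≤ B → 1 / 2 ≤ β → ∀ P : K → Prop,
    (∀ Y, 1 ≤ Y → Y ≤ X → ∀ F : Finset K, (∀ z ∈ F, Pt z ∧ nn (sp z \ T2 K) ≤ Y ∧ P z) →
      (F.card : ℝ) ≤ B * Y ^ β) →
    ∀ Q : Finset (Iso K), (∀ q ∈ Q, ∃ (E : WeierstrassCurve K) (a b : K), cl E = q ∧ E.Δ ≠ 0 ∧
      Pm E a b ∧ cond E ≤ X ∧ P (-(b / a))) → (Q.card : ℝ) ≤ c * B * X ^ (β + ε) := by
  obtain ⟨c0, hc0, hcl⟩ := Pool.Agent.TH876.NP.classes K 2 le_rfl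
  obtain ⟨c, hc, hcnt⟩ := cnt K c0 hc0 ε hε
  refine ⟨c, hc, fun X B β hX hB hβ P hP Q hQ => ?_⟩
  have hne : Nonempty (WeierstrassCurve K) := ⟨EE 1 1⟩
  choose! E a b hE hΔ hPm hcond hPz using hQ
  obtain ⟨z, hz⟩ : ∃ z : Iso K → K, z = fun q => -(b q / a q) := ⟨_, rfl⟩
  obtain ⟨A, hA⟩ : ∃ A : Iso K → Finset (Pr K), A = fun q => AA (E q) := ⟨_, rfl⟩
  have hcode : ∀ (z0 : K) (A0 : Finset (Pr K)), ∃ f : K → ℕ,
      (∀ r ∈ (Q.filter fun q => z q = z0 ∧ A q = A0).image a,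
        f r < c0 ^ ((sp z0 ∪ T2 K ∪ A0).card + 1)) ∧
      ∀ r ∈ (Q.filter fun q => z q = z0 ∧ A q = A0).image a,
      ∀ r' ∈ (Q.filter fun q => z q = z0 ∧ A q = A0).image a, f r = f r' →
        ∃ g : K, g ≠ 0 ∧ r = r' * g ^ 2 := by
    intro z0 A0
    refine hcl (sp z0 ∪ T2 K ∪ A0) _ fun r hr => ?_
    rw [Finset.mem_image] at hr
    obtain ⟨q, hq, rfl⟩ := hr
    rw [Finset.mem_filter] at hq
    obtain ⟨hq, hz0, hA0⟩ := hq
    refine ⟨(hPm q hq).1, fun v hv => ?_⟩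
    rw [Finset.mem_union, Finset.mem_union, not_or, not_or] at hv
    obtain ⟨⟨v1, v2⟩, v3⟩ := hv
    rw [mem_T2, not_not] at v2
    have hsp := (sp_iff (hPm q hq).1 (hPm q hq).2.1 (hPm q hq).2.2.1).2 v
    rw [← hz0, hz] at v1
    obtain ⟨k1, k2⟩ := hsp.1 v1
    rw [← hA0, hA] at v3
    simp only at v3
    rw [mem_AA (hΔ q hq), not_and'] at v3
    have hs : SemiAt v (E q) := not_not.1 (v3 v2)
    obtain ⟨u, hu, hm⟩ := (semi_iff v v2 (hPm q hq)).1 hs
    rw [k1, max_self] at hm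
    obtain ⟨k, hk⟩ := fv_zpow v hu
    refine ⟨k, ?_⟩
    rw [hm, hk, mul_comm, zpow_mul]
    rfl
  choose f hf1 hf2 using hcode
  refine hcnt X B β hX hB hβ P hP Q z A (fun q => f (z q) (A q) (a q)) ?_ ?_
  · intro q hq
    have hspi := sp_iff (hPm q hq).1 (hPm q hq).2.1 (hPm q hq).2.2.1
    refine ⟨by rw [hz]; exact hspi.1, by rw [hz]; exact hPz q hq, ?_, ?_⟩
    · refine hf1 (z q) (A q) (a q) ?_
      rw [Finset.mem_image]
      exact ⟨q, Finset.mem_filter.2 ⟨hq, rfl, rfl⟩, rfl⟩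
    · have h1 := cond_eq (hΔ q hq) (hPm q hq)
      have h2 : nn (sp (z q) \ T2 K) * nn (A q \ sp (z q)) ≤
          nn ((sp (-(b q / a q)) \ T2 K) ∪ AA (E q)) := by
        rw [← nn_union (Finset.disjoint_of_subset_left Finset.sdiff_subset
          Finset.disjoint_sdiff)]
        refine nn_mono ?_
        rw [hz, hA]
        intro v hv
        simp only [Finset.mem_union, Finset.mem_sdiff] at hv ⊢
        tauto
      calc nn (sp (z q) \ T2 K) * nn (A q \ sp (z q)) * nn (A q) ≤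
            nn ((sp (-(b q / a q)) \ T2 K) ∪ AA (E q)) * nn (A q) :=
              mul_le_mul_of_nonneg_right h2 (nn_pos _).le
        _ = cond (E q) := by
              rw [h1, hA]
        _ ≤ X := hcond q hq
  · intro q hq q' hq' h
    simp only [Prod.mk.injEq] at h
    obtain ⟨h1, h2, h3⟩ := h
    rw [h1, h2] at h3
    have m1 : a q ∈ (Q.filter fun q1 => z q1 = z q' ∧ A q1 = A q').image a := by
      rw [Finset.mem_image]
      exact ⟨q, Finset.mem_filter.2 ⟨hq, h1, h2⟩, rfl⟩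
    have m2 : a q' ∈ (Q.filter fun q1 => z q1 = z q' ∧ A q1 = A q').image a := by
      rw [Finset.mem_image]
      exact ⟨q', Finset.mem_filter.2 ⟨hq', rfl, rfl⟩, rfl⟩
    obtain ⟨g, hg, hag⟩ := hf2 _ _ _ m1 _ m2 h3
    rw [← hE q hq, ← hE q' hq']
    rw [hz] at h1
    exact cl_of (hPm q hq) (hPm q' hq') h1 hg hag

/-- the classes by the conductor -/
def Cl2 (K : Type) [Field K] [NumberField K] (X : ℝ) : Set (Iso K) :=
  {q | ∃ E : WeierstrassCurve K, cl E = q ∧ E.Δ ≠ 0 ∧ FullTwo E ∧ cond E ≤ X}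

/-- the count of the parameters -/
theorem par_count (K : Type) [Field K] [NumberField K] (ε : ℝ) (hε : 0 < ε) : ∃ C : ℝ, 0 < C ∧
    ∀ Y : ℝ, 1 ≤ Y → ∀ F : Finset K, (F : Set K) ⊆ ZZ K Y → (F.card : ℝ) ≤ C * Y ^ (2 / 3 + ε) := by
  obtain ⟨C, hC, h⟩ := ZZ_count K ε hε
  refine ⟨C, hC, fun Y hY F hF => ?_⟩
  obtain ⟨h1, h2⟩ := h Y hY
  rw [← Set.ncard_coe_finset]
  exact le_trans (by exact_mod_cast Set.ncard_le_ncard hF h1) h2

theorem cl2_upper (K : Type) [Field K] [NumberField K] (ε : ℝ) (hε : 0 < ε) : ∃ C : ℝ, 0 < C ∧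
    ∀ X : ℝ, 1 ≤ X → (Cl2 K X).Finite ∧ ((Cl2 K X).ncard : ℝ) ≤ C * X ^ (2 / 3 + ε) := by
  classical
  obtain ⟨c, hc, hup⟩ := upper K (ε / 2) (by positivity)
  obtain ⟨C, hC, hpc⟩ := par_count K (ε / 2) (by positivity)
  refine ⟨c * C, by positivity, fun X hX => ?_⟩
  refine fin_of_bound _ _ fun Q hQ => ?_
  have := hup X C (2 / 3 + ε / 2) hX hC.le (by linarith) (fun _ => True)
    (fun Y hY _ F hF => hpc Y hY F fun z hz => (mem_ZZ z).2 ⟨(hF z hz).1, by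
      convert (hF z hz).2.1⟩) Q (fun q hq => by
      obtain ⟨E, h1, h2, h3, h4⟩ := hQ hq
      obtain ⟨a, b, h5⟩ := pm_of_two h3
      exact ⟨E, a, b, h1, h2, h5, h4, trivial⟩)
  have e : 2 / 3 + ε / 2 + ε / 2 = 2 / 3 + ε := by ring
  rwa [e] at this

/-- the classes with an exceptional parameter -/
theorem exc_upper (K : Type) [Field K] [NumberField K] {M : ℝ} (hM : 1 / 3 < M) :
    ∃ ν C : ℝ, 0 < ν ∧ 0 < C ∧ ∀ X : ℝ, 1 ≤ X → ∀ Q : Finset (Iso K),
      (∀ q ∈ Q, ∃ (E : WeierstrassCurve K) (a b : K), cl E = q ∧ E.Δ ≠ 0 ∧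
        Pm E a b ∧ cond E ≤ X ∧ ∀ s : Finset (Pr K), (∀ v ∈ s, v ∈ sp (-(b / a)) ∧ v ∉ T2 K) →
          M * Real.log (nn s) ≤ hgt (-(b / a))) →
      (Q.card : ℝ) ≤ C * X ^ (2 / 3 - ν) := by
  classical
  obtain ⟨ν, hν, C, hC, hex⟩ := Pool.Agent.Y728.AK.exc_aff K (Pool.Agent.Y728.AK.almost_allK K)
    (T2 K) hM
  obtain ⟨ν', hν'⟩ : ∃ ν', ν' = min ν (1 / 6) := ⟨_, rfl⟩
  have hν'0 : 0 < ν' := by rw [hν']; positivity
  have hν'1 : ν' ≤ 1 / 6 := by rw [hν']; exact min_le_right _ _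
  have hν'2 : ν' ≤ ν := by rw [hν']; exact min_le_left _ _
  obtain ⟨c, hc, hup⟩ := upper K (ν' / 2) (by positivity)
  refine ⟨ν' / 2, c * C, by positivity, by positivity, fun X hX Q hQ => ?_⟩
  have := hup X C (2 / 3 - ν') hX hC.le (by linarith)
    (fun z => M * Real.log (nn (sp z \ T2 K)) ≤ hgt z)
    (fun Y hY _ F hF => (hex Y hY F fun z hz => by
      obtain ⟨h1, h2, h3⟩ := hF z hz
      exact ⟨h1, by convert h2, by convert h3⟩).trans
        (mul_le_mul_of_nonneg_left (Real.rpow_le_rpow_of_exponent_le hY (by linarith)) hC.le)) Q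
    (fun q hq => by
      obtain ⟨E, a, b, h1, h2, h3, h4, h5⟩ := hQ q hq
      refine ⟨E, a, b, h1, h2, h3, h4, h5 _ fun v hv => ?_⟩
      rw [Finset.mem_sdiff] at hv
      exact hv)
  have e : 2 / 3 - ν' + ν' / 2 = 2 / 3 - ν' / 2 := by ring
  rwa [e] at this

/-- the classes with a parameter of small radical -/
theorem small_upper (K : Type) [Field K] [NumberField K] (η : ℝ) (hη : 0 < η) (hη1 : η ≤ 1) :
    ∃ C : ℝ, 0 < C ∧ ∀ X : ℝ, 1 ≤ X → ∀ Q : Finset (Iso K),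
      (∀ q ∈ Q, ∃ (E : WeierstrassCurve K) (a b : K), cl E = q ∧ E.Δ ≠ 0 ∧
        Pm E a b ∧ cond E ≤ X ∧ -(b / a) ∈ ZZ K (X ^ (1 - η))) →
      (Q.card : ℝ) ≤ C * X ^ (2 / 3 - η / 12) := by
  classical
  obtain ⟨ε, hε⟩ : ∃ ε, ε = η / 24 := ⟨_, rfl⟩
  have hε0 : 0 < ε := by rw [hε]; positivity
  obtain ⟨c, hc, hup⟩ := upper K ε hε0
  obtain ⟨C, hC, hpc⟩ := par_count K ε hε0
  refine ⟨c * C, by positivity, fun X hX Q hQ => ?_⟩
  have hX0 : 0 < X := by linarith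
  obtain ⟨W, hW⟩ : ∃ W, W = X ^ (1 - η) := ⟨_, rfl⟩
  have hW1 : 1 ≤ W := by rw [hW]; exact Real.one_le_rpow hX (by linarith)
  have hW0 : 0 < W := by linarith
  have h1 := hup X (C * (W ^ (1 / 4 : ℝ)) ^ (2 / 3 + ε)) (3 / 4 * (2 / 3 + ε)) hX (by positivity)
    (by linarith) (fun z => nn (sp z \ T2 K) ≤ W)
    (fun Y hY _ F hF => by
      have hY0 : 0 < Y := by linarith
      have hm : 1 ≤ min Y W := le_min hY hW1
      have h2 := hpc (min Y W) hm F fun z hz => by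
        obtain ⟨h1, h2, h3⟩ := hF z hz
        exact (mem_ZZ z).2 ⟨h1, le_min (by convert h2) (by convert h3)⟩
      refine h2.trans ?_
      rw [mul_assoc]
      refine mul_le_mul_of_nonneg_left ?_ hC.le
      have h3 : min Y W ≤ W ^ (1 / 4 : ℝ) * Y ^ (3 / 4 : ℝ) := by
        have hm0 : 0 < min Y W := by linarith
        calc min Y W = (min Y W) ^ (1 / 4 : ℝ) * (min Y W) ^ (3 / 4 : ℝ) := by
              rw [← Real.rpow_add hm0]
              norm_num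
          _ ≤ _ := by
              refine mul_le_mul (Real.rpow_le_rpow hm0.le (min_le_right _ _) (by norm_num))
                (Real.rpow_le_rpow hm0.le (min_le_left _ _) (by norm_num)) (by positivity)
                (by positivity)
      calc (min Y W) ^ (2 / 3 + ε) ≤ (W ^ (1 / 4 : ℝ) * Y ^ (3 / 4 : ℝ)) ^ (2 / 3 + ε) :=
            Real.rpow_le_rpow (by positivity) h3 (by positivity)
        _ = _ := by
            rw [Real.mul_rpow (by positivity) (by positivity), ← Real.rpow_mul hY0.le])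
    Q
    (fun q hq => by
      obtain ⟨E, a, b, h1, h2, h3, h4, h5⟩ := hQ q hq
      refine ⟨E, a, b, h1, h2, h3, h4, ?_⟩
      have h6 := (mem_ZZ _).1 h5
      rw [hW]
      convert h6.2)
  refine h1.trans ?_
  have e1 : (W ^ (1 / 4 : ℝ)) ^ (2 / 3 + ε) = X ^ ((1 - η) * (1 / 4) * (2 / 3 + ε)) := by
    rw [hW, ← Real.rpow_mul hX0.le, ← Real.rpow_mul hX0.le]
  rw [e1]
  have e2 : c * (C * X ^ ((1 - η) * (1 / 4) * (2 / 3 + ε))) * X ^ (3 / 4 * (2 / 3 + ε) + ε) =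
      c * C * X ^ ((1 - η) * (1 / 4) * (2 / 3 + ε) + (3 / 4 * (2 / 3 + ε) + ε)) := by
    rw [Real.rpow_add hX0 ((1 - η) * (1 / 4) * (2 / 3 + ε)) (3 / 4 * (2 / 3 + ε) + ε)]
    ring
  rw [e2]
  refine mul_le_mul_of_nonneg_left (Real.rpow_le_rpow_of_exponent_le hX ?_) (by positivity)
  rw [hε]
  nlinarith

end Pool.Agent.Y729.AH
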