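import Mathlib
import Pool.Agent.Y729.AH.TwUp

/-!
# Isomorphism classes of elliptic curves with full two-torsion: the lower bound
-/

set_option autoImplicit false

namespace Pool.Agent.Y729.AH

open NumberField IsDedekindDomain Finset WithZero
open Pool.Agent.H691R3 (fv fv_na fv_zpow Nv)
open Pool.Agent.TH876.Loc
open Pool.Agent.TH876.FH (faltings IsPeriod FullTwo GoodAt badNorm jInv arch)
open scoped nonZeroDivisors

theorem fv_int (K : Type) [Field K] [NumberField K] (v : Pr K) (x : 𝓞 K) :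
    fv v (x : K) ≤ 1 := Pool.Agent.H691R3.fv_int_le_one v x

theorem fv_unit (K : Type) [Field K] [NumberField K] (v : Pr K) (x : 𝓞 K)
    (hx : x ∉ v.asIdeal) : fv v (x : K) = 1 := by
  rw [Pool.Agent.Y729.FW.fv_eq_one_iff]
  have e : v.valuation K ((x : 𝓞 K) : K) = v.intValuation x := v.valuation_of_algebraMap x
  rw [e]
  exact (v.intValuation_eq_one_iff).2 hx

theorem mem_of_mul {R : Type*} [CommRing R] (I J : Ideal R) {d : R} (h : d ∈ I * J) : d ∈ I := by
  have h2 : I * J ≤ I := Ideal.mul_le_left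
  exact h2 h

/-- coprime representations outside a finite set -/
theorem copr (K : Type) [Field K] [NumberField K] : ∃ T' : Finset (Pr K), ∀ z : K, z ≠ 0 →
    ∃ a : K, a ≠ 0 ∧ ∀ v : Pr K, v ∉ T' → max (fv v a) (fv v (z * a)) = 1 := by
  classical
  have hrep : ∀ c : ClassGroup (𝓞 K), ∃ J : (Ideal (𝓞 K))⁰, ClassGroup.mk0 J = c :=
    fun c => ClassGroup.mk0_surjective c
  choose J hJ using hrep
  have hJ0 : ∀ c, (J c : Ideal (𝓞 K)) ≠ 0 := fun c => nonZeroDivisors.ne_zero (J c).2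
  refine ⟨Finset.univ.biUnion fun c => (Ideal.finite_factors (hJ0 c)).toFinset, ?_⟩
  intro z hz
  obtain ⟨x, y, hy, rfl⟩ := IsFractionRing.div_surjective (A := 𝓞 K) z
  have hy0 : y ≠ 0 := nonZeroDivisors.ne_zero hy
  have hyK : (algebraMap (𝓞 K) K) y ≠ 0 := by
    intro h
    exact hy0 ((FaithfulSMul.algebraMap_injective (𝓞 K) K) (by rw [h, map_zero]))
  have hI0 : (Ideal.span {x, y} : Ideal (𝓞 K)) ≠ 0 := by
    intro h
    have : y ∈ (Ideal.span {x, y} : Ideal (𝓞 K)) := Ideal.subset_span (by simp)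
    rw [h] at this
    exact hy0 this
  obtain ⟨I, hI⟩ : ∃ I : (Ideal (𝓞 K))⁰, (I : Ideal (𝓞 K)) = Ideal.span {x, y} :=
    ⟨⟨_, mem_nonZeroDivisors_of_ne_zero hI0⟩, rfl⟩
  obtain ⟨c, hc⟩ : ∃ c, c = (ClassGroup.mk0 I)⁻¹ := ⟨_, rfl⟩
  have hpr : ((I * J c : (Ideal (𝓞 K))⁰) : Ideal (𝓞 K)).IsPrincipal := by
    have h1 : ClassGroup.mk0 (I * J c) = 1 := by
      rw [map_mul, hJ c, hc, mul_inv_cancel]
    exact (ClassGroup.mk0_eq_one_iff (I * J c).2).1 h1
  obtain ⟨d, hd⟩ := hpr.principal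
  have hd' : (Ideal.span {x, y} : Ideal (𝓞 K)) * (J c : Ideal (𝓞 K)) = Ideal.span {d} := by
    rw [← hI]
    exact hd
  have hd0 : d ≠ 0 := by
    rintro rfl
    have h1 : (Ideal.span {(0 : 𝓞 K)}) = 0 := by simp
    rw [h1] at hd'
    rcases mul_eq_zero.1 hd' with h | h
    · exact hI0 h
    · exact hJ0 c h
  have hdK : (algebraMap (𝓞 K) K) d ≠ 0 := by
    intro h
    exact hd0 ((FaithfulSMul.algebraMap_injective (𝓞 K) K) (by rw [h, map_zero]))
  refine ⟨(algebraMap (𝓞 K) K) y / (algebraMap (𝓞 K) K) d, div_ne_zero hyK hdK, fun v hv => ?_⟩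
  rw [Finset.mem_biUnion] at hv
  push Not at hv
  have hv1 := hv c (Finset.mem_univ _)
  rw [Set.Finite.mem_toFinset] at hv1
  have hv2 : ¬ (J c : Ideal (𝓞 K)) ≤ v.asIdeal := fun h => hv1 (Ideal.dvd_iff_le.2 h)
  obtain ⟨t, ht, htv⟩ := SetLike.not_le_iff_exists.1 hv2
  have hft : fv v ((algebraMap (𝓞 K) K) t) = 1 := fv_unit K v t htv
  have key : ∀ w : 𝓞 K, w ∈ (Ideal.span {x, y} : Ideal (𝓞 K)) →
      fv v ((algebraMap (𝓞 K) K) w) ≤ fv v ((algebraMap (𝓞 K) K) d) := by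
    intro w hw
    have h1 : w * t ∈ (Ideal.span {d} : Ideal (𝓞 K)) := by
      rw [← hd']
      exact Ideal.mul_mem_mul hw ht
    obtain ⟨s, hs⟩ := Ideal.mem_span_singleton'.1 h1
    have h2 := congrArg (fun r => fv v ((algebraMap (𝓞 K) K) r)) hs
    simp only [map_mul] at h2
    rw [hft, mul_one] at h2
    rw [← h2]
    exact mul_le_of_le_one_left ((fv v).nonneg _) (fv_int K v s)
  have hx1 := key x (Ideal.subset_span (by simp))
  have hy1 := key y (Ideal.subset_span (by simp))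
  have hdI : d ∈ (Ideal.span {x, y} : Ideal (𝓞 K)) := by
    have h1 : d ∈ (Ideal.span {x, y} : Ideal (𝓞 K)) * (J c : Ideal (𝓞 K)) := by
      rw [hd']
      exact Ideal.mem_span_singleton_self d
    exact mem_of_mul _ _ h1
  obtain ⟨α, β, hαβ⟩ := Ideal.mem_span_pair.1 hdI
  have hd1 : fv v ((algebraMap (𝓞 K) K) d) ≤
      max (fv v ((algebraMap (𝓞 K) K) y)) (fv v ((algebraMap (𝓞 K) K) x)) := by
    rw [← hαβ, map_add, map_mul, map_mul]
    refine (fv_na v _ _).trans (max_le ?_ ?_)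
    · rw [map_mul]
      exact (mul_le_of_le_one_left ((fv v).nonneg _) (fv_int K v α)).trans (le_max_right _ _)
    · rw [map_mul]
      exact (mul_le_of_le_one_left ((fv v).nonneg _) (fv_int K v β)).trans (le_max_left _ _)
  have hdp : 0 < fv v ((algebraMap (𝓞 K) K) d) := (fv v).pos hdK
  have e1 : (algebraMap (𝓞 K) K) x / (algebraMap (𝓞 K) K) y *
      ((algebraMap (𝓞 K) K) y / (algebraMap (𝓞 K) K) d) =
      (algebraMap (𝓞 K) K) x / (algebraMap (𝓞 K) K) d := by
    field_simp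
  rw [e1, map_div₀, map_div₀]
  apply le_antisymm
  · exact max_le ((div_le_one hdp).2 hy1) ((div_le_one hdp).2 hx1)
  · rcases le_max_iff.1 hd1 with h | h
    · exact le_max_of_le_left ((one_le_div hdp).2 h)
    · exact le_max_of_le_right ((one_le_div hdp).2 h)

theorem jj_pm {K : Type} [Field K] [NumberField K] {E : WeierstrassCurve K} {a b : K}
    (hp : Pm E a b) : E.c₄ ^ 3 / E.Δ = JJ (-(b / a)) := by
  obtain ⟨k1, k2⟩ := pm_disc hp
  have ha := hp.1
  have hb := hp.2.1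
  have hab : a - b ≠ 0 := sub_ne_zero.2 hp.2.2.1
  have e : 1 + -(b / a) = (a - b) / a := by
    field_simp
    ring
  unfold JJ
  rw [k1, k2, e]
  field_simp
  ring

theorem cl2_lower (K : Type) [Field K] [NumberField K] (δ : ℝ) (hδ : 0 < δ) : ∃ X₀ : ℝ, 1 ≤ X₀ ∧
    ∀ X : ℝ, X₀ ≤ X → X ^ (2 / 3 - δ) ≤ ((Cl2 K X).ncard : ℝ) := by
  classical
  obtain ⟨T', hT'⟩ := copr K
  obtain ⟨X1, hX1, h⟩ := Pool.Agent.Y812.lower_pointsK K (δ / 2) (by positivity)
  obtain ⟨t, ht⟩ : ∃ t, t = nn T' * nn T' := ⟨_, rfl⟩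
  have ht0 : 0 < t := by rw [ht]; exact mul_pos (nn_pos _) (nn_pos _)
  have ht1 : 1 ≤ t := by
    rw [ht]
    have := one_le_nn T'
    nlinarith
  obtain ⟨X0, hX0, hb⟩ := big (6 * t ^ (2 / 3 - δ / 2)) (δ / 2) (by positivity)
  refine ⟨max X0 (X1 * t), hX0.trans (le_max_left _ _), fun X hX => ?_⟩
  have hXX : X0 ≤ X := (le_max_left _ _).trans hX
  have hXt : X1 * t ≤ X := (le_max_right _ _).trans hX
  have hX1' : 1 ≤ X := hX0.trans hXX
  have hXp : 0 < X := by linarith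
  obtain ⟨F, hF1, hF2⟩ := h (X / t) ((le_div_iff₀ ht0).2 hXt)
  have hcur : ∀ z ∈ F, ∃ E : WeierstrassCurve K, E.Δ ≠ 0 ∧ FullTwo E ∧ cond E ≤ X ∧
      E.c₄ ^ 3 / E.Δ = JJ z := by
    intro z hz
    obtain ⟨⟨z0, z1⟩, hn⟩ := hF1 z hz
    obtain ⟨a, ha, hv⟩ := hT' (-z) (neg_ne_zero.2 z0)
    have hb : -z * a ≠ 0 := mul_ne_zero (neg_ne_zero.2 z0) ha
    have hab : a ≠ -z * a := by
      intro h
      apply z1
      have : a * (z + 1) = 0 := by linear_combination h
      exact (mul_eq_zero.1 this).resolve_left ha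
    have hp := pm_EE ha hb hab
    have hΔ : (EE a (-z * a)).Δ ≠ 0 := by
      rw [(pm_disc hp).1]
      exact mul_ne_zero (by norm_num) (mul_ne_zero (mul_ne_zero (pow_ne_zero _ ha)
        (pow_ne_zero _ hb)) (pow_ne_zero _ (sub_ne_zero.2 hab)))
    have hza : -(-z * a / a) = z := by
      field_simp
    refine ⟨EE a (-z * a), hΔ, two_of_pm hp, ?_, ?_⟩
    · rw [cond_eq hΔ hp, hza]
      have hAT : AA (EE a (-z * a)) ⊆ T' := by
        intro v hv1
        rw [mem_AA hΔ] at hv1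
        by_contra hc
        apply hv1.1
        rw [semi_iff v hv1.2 hp]
        refine ⟨1, one_ne_zero, ?_⟩
        rw [hv v hc, map_one]
        norm_num
      have h1 : nn ((sp z \ T2 K) ∪ AA (EE a (-z * a))) ≤ nn (sp z) * nn T' := by
        calc nn ((sp z \ T2 K) ∪ AA (EE a (-z * a))) ≤ nn (sp z ∪ (T' \ sp z)) := by
              refine nn_mono fun v hv1 => ?_
              rw [Finset.union_sdiff_self_eq_union]
              rw [Finset.mem_union, Finset.mem_sdiff] at hv1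
              rw [Finset.mem_union]
              rcases hv1 with h1 | h1
              · exact Or.inl h1.1
              · exact Or.inr (hAT h1)
          _ = nn (sp z) * nn (T' \ sp z) := nn_union Finset.disjoint_sdiff
          _ ≤ _ := mul_le_mul_of_nonneg_left (nn_mono Finset.sdiff_subset) (nn_pos _).le
      have h2 : nn (AA (EE a (-z * a))) ≤ nn T' := nn_mono hAT
      rw [le_div_iff₀ ht0] at hn
      calc _ ≤ nn (sp z) * nn T' * nn T' := mul_le_mul h1 h2 (nn_pos _).le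
            (mul_pos (nn_pos _) (nn_pos _)).le
        _ = nn (sp z) * t := by rw [ht]; ring
        _ ≤ X := hn
    · rw [jj_pm hp, hza]
  have hne : Nonempty (WeierstrassCurve K) := ⟨EE 1 1⟩
  choose! E hE1 hE2 hE3 hE4 using hcur
  have hsub : ((F.image fun z => cl (E z) : Finset (Iso K)) : Set (Iso K)) ⊆ Cl2 K X := by
    intro q hq
    rw [Finset.mem_coe, Finset.mem_image] at hq
    obtain ⟨z, hz, rfl⟩ := hq
    exact ⟨E z, rfl, hE1 z hz, hE2 z hz, hE3 z hz⟩
  have hcard : F.card ≤ 6 * (F.image fun z => cl (E z)).card := by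
    refine Finset.card_le_mul_card_image F 6 fun q hq => ?_
    rw [Finset.mem_image] at hq
    obtain ⟨z0, hz0, rfl⟩ := hq
    have h1 : (F.filter fun z => cl (E z) = cl (E z0)) ⊆ (QK (JJ z0)).roots.toFinset := by
      intro z hz
      rw [Finset.mem_filter] at hz
      obtain ⟨hz, hy⟩ := hz
      obtain ⟨C, hC⟩ := cl_eq.1 hy
      have hjj : JJ z = JJ z0 := by
        rw [← hE4 z hz, ← hE4 z0 hz0, ← hC]
        exact (jinv_change (hE1 z0 hz0) C).2.symm
      have hpt := (hF1 z hz).1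
      rw [Multiset.mem_toFinset, Polynomial.mem_roots (QK_ne _), Polynomial.IsRoot.def]
      have hd : z ^ 2 * (1 + z) ^ 2 ≠ 0 := by
        have e : 1 + z = z + 1 := by ring
        rw [e]
        exact mul_ne_zero (pow_ne_zero _ hpt.1) (pow_ne_zero _ hpt.2)
      have hy2 : 256 * (z ^ 2 + z + 1) ^ 3 / (z ^ 2 * (1 + z) ^ 2) = JJ z0 := hjj
      rw [div_eq_iff hd] at hy2
      unfold QK
      simp only [Polynomial.eval_sub, Polynomial.eval_mul, Polynomial.eval_add,
        Polynomial.eval_pow, Polynomial.eval_X, Polynomial.eval_one, Polynomial.eval_C,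
        Polynomial.eval_ofNat]
      linear_combination hy2
    calc (F.filter fun z => cl (E z) = cl (E z0)).card ≤ (QK (JJ z0)).roots.toFinset.card :=
          Finset.card_le_card h1
      _ ≤ Multiset.card (QK (JJ z0)).roots := Multiset.toFinset_card_le _
      _ ≤ (QK (JJ z0)).natDegree := Polynomial.card_roots' _
      _ ≤ 6 := QK_deg _
  obtain ⟨C9, hC9, hup⟩ := cl2_upper K 1 one_pos
  have h3 : (F.image fun z => cl (E z)).card ≤ (Cl2 K X).ncard := by
    rw [← Set.ncard_coe_finset]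
    exact Set.ncard_le_ncard hsub (hup X hX1').1
  have h4 : (F.card : ℝ) ≤ 6 * (Cl2 K X).ncard := by exact_mod_cast hcard.trans (by omega)
  have h5 : (X / t) ^ (2 / 3 - δ / 2) = X ^ (2 / 3 - δ / 2) / t ^ (2 / 3 - δ / 2) :=
    Real.div_rpow hXp.le ht0.le _
  rw [h5] at hF2
  have hta : 0 < t ^ (2 / 3 - δ / 2) := Real.rpow_pos_of_pos ht0 _
  have h6 : X ^ (2 / 3 - δ) * (6 * t ^ (2 / 3 - δ / 2)) ≤ X ^ (2 / 3 - δ / 2) := by
    calc X ^ (2 / 3 - δ) * (6 * t ^ (2 / 3 - δ / 2)) ≤ X ^ (2 / 3 - δ) * X ^ (δ / 2) :=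
          mul_le_mul_of_nonneg_left (hb X hXX) (Real.rpow_nonneg hXp.le _)
      _ = _ := by
          rw [← Real.rpow_add hXp]
          congr 1
          ring
  have h7 : 6 * X ^ (2 / 3 - δ) ≤ X ^ (2 / 3 - δ / 2) / t ^ (2 / 3 - δ / 2) := by
    rw [le_div_iff₀ hta]
    linarith
  linarith

end Pool.Agent.Y729.AH
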