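import Mathlib
import Pool.Agent.Y729.AH.TwLow

/-!
# Isomorphism classes of elliptic curves with full two-torsion: the main theorems
-/

set_option autoImplicit false

namespace Pool.Agent.Y729.AH

open NumberField IsDedekindDomain Finset WithZero
open Pool.Agent.H691R3 (fv fv_na fv_zpow Nv)
open Pool.Agent.TH876.Loc
open Pool.Agent.TH876.FH (faltings IsPeriod FullTwo GoodAt badNorm jInv arch)
open Pool.Agent.Y729.AE (hRes)

/-- the classes of large height -/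
def Abv (K L : Type) [Field K] [NumberField K] [Field L] [NumberField L] [Algebra K L]
    (κ c X : ℝ) : Set (Iso L) :=
  {q | ∃ (E : WeierstrassCurve L) (τ : InfinitePlace L → UpperHalfPlane), cl E = q ∧ E.Δ ≠ 0 ∧
    FullTwo E ∧ cond E ≤ X ∧ IsPeriod (E.c₄ ^ 3 / E.Δ) τ ∧
    κ * Real.log (cond E) + c ≤ Module.finrank ℚ K * hRes K E τ}

/-- the classes of small height -/
def Blw (K L : Type) [Field K] [NumberField K] [Field L] [NumberField L] [Algebra K L]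
    (κ c : ℝ) : Set (Iso L) :=
  {q | ∃ (E : WeierstrassCurve L) (τ : InfinitePlace L → UpperHalfPlane), cl E = q ∧ E.Δ ≠ 0 ∧
    FullTwo E ∧ IsPeriod (E.c₄ ^ 3 / E.Δ) τ ∧
    Module.finrank ℚ K * hRes K E τ ≤ κ * Real.log (cond E) + c}

open Classical in
theorem cond_bounds {K : Type} [Field K] [NumberField K] {E : WeierstrassCurve K} {a b : K}
    (hE : E.Δ ≠ 0) (hp : Pm E a b) :
    Real.log (nn (sp (-(b / a)) \ T2 K)) + Real.log (nn (AA E)) ≤ Real.log (cond E) ∧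
    Real.log (cond E) ≤
      Real.log (nn (sp (-(b / a)) \ T2 K)) + 2 * Real.log (nn (AA E)) ∧ 1 ≤ cond E := by
  rw [cond_eq hE hp]
  have p1 := nn_pos (sp (-(b / a)) \ T2 K)
  have p2 := nn_pos (AA E)
  have p3 := nn_pos ((sp (-(b / a)) \ T2 K) ∪ AA E)
  rw [Real.log_mul p3.ne' p2.ne']
  refine ⟨?_, ?_, ?_⟩
  · have := Real.log_le_log p1 (nn_mono (Finset.subset_union_left (s₁ := sp (-(b / a)) \ T2 K)
      (s₂ := AA E)))
    linarith
  · have h1 : nn ((sp (-(b / a)) \ T2 K) ∪ AA E) ≤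
        nn (sp (-(b / a)) \ T2 K) * nn (AA E) := by
      rw [← Finset.union_sdiff_self_eq_union, nn_union Finset.disjoint_sdiff]
      exact mul_le_mul_of_nonneg_left (nn_mono Finset.sdiff_subset) p1.le
    have h2 := Real.log_le_log p3 h1
    rw [Real.log_mul p1.ne' p2.ne'] at h2
    linarith
  · have q1 := one_le_nn ((sp (-(b / a)) \ T2 K) ∪ AA E)
    have q2 := one_le_nn (AA E)
    nlinarith

/-- **the classes of large height are few** -/
theorem abv_upper (K L : Type) [Field K] [NumberField K] [Field L] [NumberField L] [Algebra K L]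
    (κ c : ℝ) (hκ : 1 / 6 < κ) : ∃ ν C X₀ : ℝ, 0 < ν ∧ 0 < C ∧ 1 ≤ X₀ ∧ ∀ X : ℝ, X₀ ≤ X →
      ((Abv K L κ c X).ncard : ℝ) ≤ C * X ^ (2 / 3 - ν) := by
  classical
  obtain ⟨C0, hC0, hres⟩ := hres_upper K L
  obtain ⟨ν, C1, hν, hC1, hex⟩ := exc_upper L (M := κ + 1 / 6) (by linarith)
  obtain ⟨θ, hθ⟩ : ∃ θ, θ = κ - 1 / 6 := ⟨_, rfl⟩
  have hθ0 : 0 < θ := by rw [hθ]; linarith
  obtain ⟨η, hη⟩ : ∃ η, η = min (1 / 4) (θ / 4) := ⟨_, rfl⟩
  have hη0 : 0 < η := by rw [hη]; positivity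
  have hη1 : η ≤ 1 / 4 := by rw [hη]; exact min_le_left _ _
  have hη2 : η ≤ θ / 4 := by rw [hη]; exact min_le_right _ _
  obtain ⟨C2, hC2, hsm⟩ := small_upper L η hη0 (by linarith)
  obtain ⟨D0, hD0⟩ : ∃ D0, D0 = C0 + 2 * |c| + 1 := ⟨_, rfl⟩
  have hD00 : 0 < D0 := by rw [hD0]; positivity
  refine ⟨min ν (η / 12), C1 + C2, max 1 (Real.exp (2 * D0 / θ)), by positivity, by positivity,
    le_max_left _ _, fun X hX => ?_⟩
  have hX1 : 1 ≤ X := (le_max_left _ _).trans hX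
  have hX0 : 0 < X := by linarith
  have hXe : 2 * D0 / θ ≤ Real.log X := by
    rw [Real.le_log_iff_exp_le hX0]
    exact (le_max_right _ _).trans hX
  rw [div_le_iff₀ hθ0] at hXe
  have hlX : 0 ≤ Real.log X := Real.log_nonneg hX1
  refine (fin_of_bound _ _ fun Q hQ => ?_).2
  have hsplit : ∀ q ∈ Q, (∃ (E : WeierstrassCurve L) (a b : L), cl E = q ∧ E.Δ ≠ 0 ∧
        Pm E a b ∧ cond E ≤ X ∧ ∀ s : Finset (Pr L), (∀ v ∈ s, v ∈ sp (-(b / a)) ∧ v ∉ T2 L) →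
          (κ + 1 / 6) * Real.log (nn s) ≤ hgt (-(b / a))) ∨
      (∃ (E : WeierstrassCurve L) (a b : L), cl E = q ∧ E.Δ ≠ 0 ∧
        Pm E a b ∧ cond E ≤ X ∧ -(b / a) ∈ ZZ L (X ^ (1 - η))) := by
    intro q hq
    obtain ⟨E, τ, h1, h2, h3, h4, h5, h6⟩ := hQ hq
    obtain ⟨a, b, hp⟩ := pm_of_two h3
    obtain ⟨k1, k2, k3⟩ := cond_bounds h2 hp
    have k4 := hres E a b τ h2 hp h5
    obtain ⟨R, hR⟩ : ∃ R, R = Real.log (nn (sp (-(b / a)) \ T2 L)) := ⟨_, rfl⟩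
    obtain ⟨D, hD⟩ : ∃ D, D = Real.log (nn (AA E)) := ⟨_, rfl⟩
    rw [← hR, ← hD] at k1
    rw [← hD] at k4
    have hD1 : 0 ≤ D := by rw [hD]; exact Real.log_nonneg (one_le_nn _)
    have hR1 : 0 ≤ R := by rw [hR]; exact Real.log_nonneg (one_le_nn _)
    by_cases hcase : (κ + 1 / 6) * R ≤ hgt (-(b / a))
    · left
      refine ⟨E, a, b, h1, h2, hp, h4, fun s hs => ?_⟩
      refine le_trans ?_ hcase
      refine mul_le_mul_of_nonneg_left ?_ (by linarith)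
      rw [hR]
      refine Real.log_le_log (nn_pos _) (nn_mono fun v hv => ?_)
      rw [Finset.mem_sdiff]
      exact hs v hv
    · right
      refine ⟨E, a, b, h1, h2, hp, h4, (mem_ZZ _).2 ⟨(sp_iff hp.1 hp.2.1 hp.2.2.1).1, ?_⟩⟩
      rw [not_le] at hcase
      by_contra hc
      rw [not_le] at hc
      have hR2 : (1 - η) * Real.log X < R := by
        rw [← Real.log_rpow hX0, hR]
        refine Real.log_lt_log (by positivity) ?_
        convert hc
      have hcX : Real.log (cond E) ≤ Real.log X := Real.log_le_log (by linarith) h4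
      have k5 := neg_abs_le c
      have k6 : κ * (R + D) ≤ κ * Real.log (cond E) :=
        mul_le_mul_of_nonneg_left k1 (by linarith)
      have k7 : θ * R < D + D0 := by
        rw [hθ, hD0]
        nlinarith
      have k8 : θ * ((1 - η) * Real.log X) ≤ θ * R := mul_le_mul_of_nonneg_left hR2.le hθ0.le
      have k9 : D ≤ η * Real.log X := by linarith
      have k10 : η * Real.log X ≤ θ / 4 * Real.log X := mul_le_mul_of_nonneg_right hη2 hlX
      have k11 : θ * ((1 - η) * Real.log X) ≥ 3 / 4 * (θ * Real.log X) := by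
        have : 0 ≤ θ * Real.log X := by positivity
        nlinarith
      linarith
  have hc1 := hex X hX1 (Q.filter fun q => ∃ (E : WeierstrassCurve L) (a b : L), cl E = q ∧
    E.Δ ≠ 0 ∧ Pm E a b ∧ cond E ≤ X ∧ ∀ s : Finset (Pr L),
      (∀ v ∈ s, v ∈ sp (-(b / a)) ∧ v ∉ T2 L) →
          (κ + 1 / 6) * Real.log (nn s) ≤ hgt (-(b / a))) fun q hq => (Finset.mem_filter.1 hq).2
  have hc2 := hsm X hX1 (Q.filter fun q => ∃ (E : WeierstrassCurve L) (a b : L), cl E = q ∧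
    E.Δ ≠ 0 ∧ Pm E a b ∧ cond E ≤ X ∧ -(b / a) ∈ ZZ L (X ^ (1 - η)))
      fun q hq => (Finset.mem_filter.1 hq).2
  have hc3 : Q.card ≤ (Q.filter fun q => ∃ (E : WeierstrassCurve L) (a b : L), cl E = q ∧
    E.Δ ≠ 0 ∧ Pm E a b ∧ cond E ≤ X ∧ ∀ s : Finset (Pr L),
      (∀ v ∈ s, v ∈ sp (-(b / a)) ∧ v ∉ T2 L) →
          (κ + 1 / 6) * Real.log (nn s) ≤ hgt (-(b / a))).card +
      (Q.filter fun q => ∃ (E : WeierstrassCurve L) (a b : L), cl E = q ∧
        E.Δ ≠ 0 ∧ Pm E a b ∧ cond E ≤ X ∧ -(b / a) ∈ ZZ L (X ^ (1 - η))).card := by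
    refine (Finset.card_le_card fun q hq => ?_).trans (Finset.card_union_le _ _)
    rw [Finset.mem_union, Finset.mem_filter, Finset.mem_filter]
    rcases hsplit q hq with h | h
    · exact Or.inl ⟨hq, h⟩
    · exact Or.inr ⟨hq, h⟩
  have hc4 : (Q.card : ℝ) ≤ C1 * X ^ (2 / 3 - ν) + C2 * X ^ (2 / 3 - η / 12) := by
    refine le_trans (by exact_mod_cast hc3) (add_le_add hc1 hc2)
  have e1 : X ^ (2 / 3 - ν) ≤ X ^ (2 / 3 - min ν (η / 12)) :=
    Real.rpow_le_rpow_of_exponent_le hX1 (by linarith [min_le_left ν (η / 12)])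
  have e2 : X ^ (2 / 3 - η / 12) ≤ X ^ (2 / 3 - min ν (η / 12)) :=
    Real.rpow_le_rpow_of_exponent_le hX1 (by linarith [min_le_right ν (η / 12)])
  calc (Q.card : ℝ) ≤ _ := hc4
    _ ≤ C1 * X ^ (2 / 3 - min ν (η / 12)) + C2 * X ^ (2 / 3 - min ν (η / 12)) :=
        add_le_add (mul_le_mul_of_nonneg_left e1 hC1.le) (mul_le_mul_of_nonneg_left e2 hC2.le)
    _ = _ := by ring

/-- **almost all classes** -/
theorem abv_ratio (K L : Type) [Field K] [NumberField K] [Field L] [NumberField L] [Algebra K L]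
    (κ c : ℝ) (hκ : 1 / 6 < κ) : ∃ ν X₀ : ℝ, 0 < ν ∧ ∀ X : ℝ, X₀ ≤ X →
      ((Abv K L κ c X).ncard : ℝ) ≤ X ^ (-ν) * (Cl2 L X).ncard := by
  obtain ⟨ν, C, X3, hν, hC, hX3, h1⟩ := abv_upper K L κ c hκ
  obtain ⟨X1, hX1, h2⟩ := cl2_lower L (ν / 2) (by positivity)
  obtain ⟨X2, hX2, h3⟩ := big C (ν / 4) (by positivity)
  refine ⟨ν / 4, max X3 (max X1 X2), by positivity, fun X hX => ?_⟩
  have k1 : X1 ≤ X := ((le_max_left _ _).trans (le_max_right _ _)).trans hX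
  have k2 : X2 ≤ X := ((le_max_right _ _).trans (le_max_right _ _)).trans hX
  have k3 : X3 ≤ X := (le_max_left _ _).trans hX
  have hX1' : 1 ≤ X := hX1.trans k1
  have hX0 : 0 < X := by linarith
  calc ((Abv K L κ c X).ncard : ℝ) ≤ C * X ^ (2 / 3 - ν) := h1 X k3
    _ ≤ X ^ (ν / 4) * X ^ (2 / 3 - ν) :=
        mul_le_mul_of_nonneg_right (h3 X k2) (Real.rpow_nonneg hX0.le _)
    _ = X ^ (-(ν / 4)) * X ^ (2 / 3 - ν / 2) := by
        rw [← Real.rpow_add hX0, ← Real.rpow_add hX0]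
        congr 1
        ring
    _ ≤ _ := mul_le_mul_of_nonneg_left (h2 X k1) (Real.rpow_nonneg hX0.le _)

/-- **only finitely many classes of small height** -/
theorem blw_finite (K L : Type) [Field K] [NumberField K] [Field L] [NumberField L] [Algebra K L]
    (κ c : ℝ) (hκ : κ < 1 / 6) : (Blw K L κ c).Finite := by
  classical
  obtain ⟨k, hk⟩ : ∃ k, k = max κ 0 := ⟨_, rfl⟩
  have hk0 : 0 ≤ k := by rw [hk]; exact le_max_right _ _
  have hkκ : κ ≤ k := by rw [hk]; exact le_max_left _ _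
  have hk1 : k < 1 / 6 := by rw [hk]; exact max_lt hκ (by norm_num)
  obtain ⟨δ, hδ⟩ : ∃ δ, δ = (1 - 6 * k) / 2 := ⟨_, rfl⟩
  have hδ0 : 0 < δ := by rw [hδ]; linarith
  have hδ1 : δ ≤ 1 / 2 := by rw [hδ]; linarith
  obtain ⟨C0, hC0, hres⟩ := hres_lower K L δ hδ0
  obtain ⟨W, hW⟩ : ∃ W, W = C0 + 2 * (1 + δ) * |c| := ⟨_, rfl⟩
  have hW0 : 0 ≤ W := by rw [hW]; positivity
  obtain ⟨C1, hC1, hup⟩ := cl2_upper L 1 one_pos
  have hk6 : 0 < 1 - 6 * k := by linarith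
  obtain ⟨Z, hZ⟩ : ∃ Z, Z = 6 * W / (1 - 6 * k) + 6 * W := ⟨_, rfl⟩
  have hZ0 : 0 ≤ Z := by rw [hZ]; positivity
  refine (hup (Real.exp Z) (Real.one_le_exp hZ0)).1.subset ?_
  rintro q ⟨E, τ, h1, h2, h3, h5, h6⟩
  obtain ⟨a, b, hp⟩ := pm_of_two h3
  obtain ⟨k1, k2, k3⟩ := cond_bounds h2 hp
  refine ⟨E, h1, h2, h3, ?_⟩
  rw [← Real.log_le_iff_le_exp (by linarith)]
  have k4 := hres E a b τ h2 hp h5
  obtain ⟨R, hR⟩ : ∃ R, R = Real.log (nn (sp (-(b / a)) \ T2 L)) := ⟨_, rfl⟩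
  obtain ⟨D, hD⟩ : ∃ D, D = Real.log (nn (AA E)) := ⟨_, rfl⟩
  rw [← hR, ← hD] at k2
  rw [← hD] at k4
  have hD1 : 0 ≤ D := by rw [hD]; exact Real.log_nonneg (one_le_nn _)
  have hR1 : 0 ≤ R := by rw [hR]; exact Real.log_nonneg (one_le_nn _)
  have hRh : R ≤ 3 * hgt (-(b / a)) := by
    have e1 := Pool.Agent.Y728.AK.rad_le_three (sp_iff hp.1 hp.2.1 hp.2.2.1).1
    have e2 : R ≤ Real.log (nn (sp (-(b / a)))) := by
      rw [hR]
      exact Real.log_le_log (nn_pos _) (nn_mono Finset.sdiff_subset)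
    linarith
  have hlc : 0 ≤ Real.log (cond E) := Real.log_nonneg k3
  have h7 : κ * Real.log (cond E) ≤ k * (R + 2 * D) :=
    (mul_le_mul_of_nonneg_right hkκ hlc).trans (mul_le_mul_of_nonneg_left k2 hk0)
  have h8 : 2 * (1 + δ) * ((Module.finrank ℚ K : ℝ) * hRes K E τ) ≤
      2 * (1 + δ) * (k * (R + 2 * D) + |c|) := by
    refine mul_le_mul_of_nonneg_left ?_ (by linarith)
    have := le_abs_self c
    linarith
  have h9 : R / 3 + (1 + δ) * D ≤ 2 * (1 + δ) * (k * (R + 2 * D)) + W := by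
    rw [hW]
    linarith
  have h10 : 6 * k * (1 + δ) ≤ (1 + 6 * k) / 2 := by
    rw [hδ]
    nlinarith
  have h11 : 2 * (1 + δ) * (k * (R + 2 * D)) ≤ (1 + 6 * k) / 6 * (R + 2 * D) := by
    have : 0 ≤ R + 2 * D := by linarith
    nlinarith
  have h12 : (1 - 6 * k) / 6 * R + D / 3 ≤ W := by
    have e1 : (1 + 6 * k) / 6 * (R + 2 * D) = (1 + 6 * k) / 6 * R + (1 + 6 * k) / 3 * D := by ring
    have e2 : (1 + 6 * k) / 3 * D ≤ 2 / 3 * D := mul_le_mul_of_nonneg_right (by linarith) hD1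
    have e3 : 0 ≤ δ * D := by positivity
    linarith
  have h13 : R ≤ 6 * W / (1 - 6 * k) := by
    rw [le_div_iff₀ hk6]
    linarith
  have h14 : D ≤ 3 * W := by
    have : 0 ≤ (1 - 6 * k) / 6 * R := by positivity
    linarith
  rw [hZ]
  linarith

end Pool.Agent.Y729.AH
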